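import Pool.Agent.Lib.MP_a1a06b_an.LZ.THa

set_option autoImplicit false

open Finset MeasureTheory
open scoped Classical ENNReal

noncomputable section

namespace Pool.Agent.Lib.MP_a1a06b_an.LZ

variable (P : Par) {Ω : Type} [MeasurableSpace Ω] (μ : Measure Ω) [IsProbabilityMeasure μ]

private theorem THb_val (𝓕 : Fam P μ) (y : ℕ → ℝ) (F : Finset ℕ) (s : Ω) :
    (∑ j ∈ F, y j • 𝓕.u j : SimpleFunc Ω (ℕ →₀ ℝ)) s =
      ∑ j ∈ F, y j • uval P (𝓕.lv j) j (𝓕.a j s) := by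
  induction F using Finset.induction_on with
  | empty => simp
  | insert a F ha ih =>
    rw [Finset.sum_insert ha, Finset.sum_insert ha, SimpleFunc.coe_add, Pi.add_apply, ih]
    rfl

/-- ROW TH (key estimate). `norm_Th_le`; the value at `s` of the function is `∑ j ∈ F, y j • uval (lv j) j (a j s)`; `nX_uval_le` and `pointwise` with `Bad = {j ∈ F : ¬ Good (a j s) (lv j)}`:
`≤ 9 (1/2)^L + ∑_{j ∈ F, (1/64)^(lv j) < |y j|} 3 * 2^(lv j) |y j| 1_{B_j}(s)`, `B_j = {s | ¬ Good P (a j s) (lv j)}` (measurable: preimage by a simple function). Integrate (`μ B_j ≤ 1/(16^l A l)`) and use `counting`. -/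
theorem key (𝓕 : Fam P μ) (y : ℕ → ℝ) (hy : Prof P y) (F : Finset ℕ) (L : ℕ)
    (hL : ∀ j ∈ F, |y j| ≤ (1 / 64) ^ L) :
    ∫ s, nX P ((∑ j ∈ F, y j • 𝓕.u j : SimpleFunc Ω (ℕ →₀ ℝ)) s) ∂μ ≤ 12 * (1 / 2) ^ L := by
  set F' := F.filter (fun j => (1 / 64 : ℝ) ^ 𝓕.lv j < |y j|) with hF'
  set B : ℕ → Set Ω := fun j => {s | ¬ Good P (𝓕.a j s) (𝓕.lv j)} with hB
  have hBm : ∀ j, MeasurableSet (B j) := fun j =>
    (𝓕.a j).measurableSet_preimage {x | ¬ Good P x (𝓕.lv j)}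
  set g : Ω → ℝ := fun s => 9 * (1 / 2) ^ L +
    ∑ j ∈ F', (B j).indicator (fun _ => 3 * 2 ^ 𝓕.lv j * |y j|) s with hg
  have hint : ∀ j, Integrable ((B j).indicator (fun _ => 3 * 2 ^ 𝓕.lv j * |y j|)) μ := fun j =>
    (integrable_const _).indicator (hBm j)
  have hgi : Integrable g μ :=
    (integrable_const _).add (integrable_finsetSum _ (fun j _ => hint j))
  have hle : ∀ s, nX P ((∑ j ∈ F, y j • 𝓕.u j : SimpleFunc Ω (ℕ →₀ ℝ)) s) ≤ g s := by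
    intro s
    rw [THb_val]
    refine (nX_uval_le P y F 𝓕.lv (fun j => 𝓕.a j s)).trans ?_
    refine (pointwise P y hy F (F.filter (fun j => ¬ Good P (𝓕.a j s) (𝓕.lv j))) 𝓕.lv L hL).trans ?_
    refine add_le_add le_rfl (Finset.sum_le_sum ?_)
    intro j hj
    have hjF : j ∈ F := (Finset.mem_filter.1 hj).1
    by_cases hgood : Good P (𝓕.a j s) (𝓕.lv j)
    · rw [if_neg (by simp [hgood]), Set.indicator_of_notMem (by simp [hB, hgood])]
    · rw [if_pos (Finset.mem_filter.2 ⟨hjF, hgood⟩),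
        Set.indicator_of_mem (show s ∈ B j from hgood)]
  have h1 : ∫ s, nX P ((∑ j ∈ F, y j • 𝓕.u j : SimpleFunc Ω (ℕ →₀ ℝ)) s) ∂μ ≤ ∫ s, g s ∂μ :=
    integral_mono_of_nonneg (Filter.Eventually.of_forall fun s => nX_nonneg P _) hgi
      (Filter.Eventually.of_forall hle)
  refine h1.trans ?_
  have h2 : ∫ s, g s ∂μ = 9 * (1 / 2) ^ L +
      ∑ j ∈ F', μ.real (B j) * (3 * 2 ^ 𝓕.lv j * |y j|) := by
    rw [hg, integral_add (integrable_const _) (integrable_finsetSum _ (fun j _ => hint j)),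
      integral_finsetSum _ (fun j _ => hint j)]
    congr 1
    · simp
    · refine Finset.sum_congr rfl fun j _ => ?_
      rw [integral_indicator (hBm j), setIntegral_const, smul_eq_mul]
  rw [h2]
  have h3 : ∀ j ∈ F', μ.real (B j) * (3 * 2 ^ 𝓕.lv j * |y j|) ≤
      3 * 2 ^ 𝓕.lv j * |y j| * (1 / (16 ^ 𝓕.lv j * (P.A (𝓕.lv j) : ℝ))) := by
    intro j _
    have hpos : (0 : ℝ) ≤ 1 / (16 ^ 𝓕.lv j * (P.A (𝓕.lv j) : ℝ)) := by positivity
    have hb : μ.real (B j) ≤ 1 / (16 ^ 𝓕.lv j * (P.A (𝓕.lv j) : ℝ)) :=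
      ENNReal.toReal_le_of_le_ofReal hpos (𝓕.bad j)
    rw [mul_comm]
    exact mul_le_mul_of_nonneg_left hb (by positivity)
  have h4 := counting P y hy F 𝓕.lv L hL
  have h5 := Finset.sum_le_sum h3
  calc 9 * (1 / 2 : ℝ) ^ L + ∑ j ∈ F', μ.real (B j) * (3 * 2 ^ 𝓕.lv j * |y j|)
      ≤ 9 * (1 / 2 : ℝ) ^ L + 3 * (1 / 2) ^ L := by linarith
    _ = 12 * (1 / 2) ^ L := by ring

end Pool.Agent.Lib.MP_a1a06b_an.LZ
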