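import Pool.Agent.Lib.MP_a1a06b_an.LZ.FB
import Pool.Agent.Lib.MP_a1a06b_an.LZ.THb

set_option autoImplicit false

open Finset MeasureTheory Filter Topology
open scoped Classical ENNReal

noncomputable section

namespace Pool.Agent.Lib.MP_a1a06b_an.LZ

variable (P : Par) {Ω : Type} [MeasurableSpace Ω] (μ : Measure Ω) [IsProbabilityMeasure μ]

private theorem ASa_zero_smul (u : SimpleFunc Ω (ℕ →₀ ℝ)) : (0 : ℝ) • u = 0 := by
  refine SimpleFunc.ext fun s => ?_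
  rw [SimpleFunc.coe_smul, Pi.smul_apply, zero_smul, SimpleFunc.coe_zero, Pi.zero_apply]

private theorem ASa_add_smul (a b : ℝ) (u : SimpleFunc Ω (ℕ →₀ ℝ)) :
    (a + b) • u = a • u + b • u := by
  refine SimpleFunc.ext fun s => ?_
  rw [SimpleFunc.coe_smul, Pi.smul_apply, add_smul, SimpleFunc.coe_add, Pi.add_apply,
    SimpleFunc.coe_smul, Pi.smul_apply, SimpleFunc.coe_smul, Pi.smul_apply]

private theorem ASa_scaled {E : Type*} [NormedAddCommGroup E] [NormedSpace ℝ E]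
    (g : ℕ → E →L[ℝ] ℝ)
    (hP : ∀ x : E, ‖x‖ ≤ 1 → Prof P (fun n => g n x)) (𝓕 : Fam P μ) (x x' : E) (N : ℝ)
    (hN : 0 ≤ N) (hx : x = N • x') (hx' : ‖x'‖ ≤ 1) (F : Finset ℕ) (L : ℕ)
    (hL : ∀ j ∈ F, |g j x'| ≤ (1 / 64) ^ L) :
    ‖∑ j ∈ F, Th P μ ((g j x) • 𝓕.u j)‖ ≤ N * (12 * (1 / 2) ^ L) := by
  rw [← map_sum]
  refine (norm_Th_le P μ _).trans ?_
  have h1 : ∀ s, nX P ((∑ j ∈ F, (g j x) • 𝓕.u j : SimpleFunc Ω (ℕ →₀ ℝ)) s) =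
      N * nX P ((∑ j ∈ F, (g j x') • 𝓕.u j : SimpleFunc Ω (ℕ →₀ ℝ)) s) := by
    intro s
    have h2 : (∑ j ∈ F, (g j x) • 𝓕.u j : SimpleFunc Ω (ℕ →₀ ℝ)) =
        N • (∑ j ∈ F, (g j x') • 𝓕.u j : SimpleFunc Ω (ℕ →₀ ℝ)) := by
      rw [Finset.smul_sum]
      refine Finset.sum_congr rfl fun j _ => ?_
      rw [hx, map_smul, smul_eq_mul, mul_smul]
    rw [h2, SimpleFunc.coe_smul, Pi.smul_apply, nX_smul, abs_of_nonneg hN]
  simp_rw [h1]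
  rw [integral_const_mul]
  exact mul_le_mul_of_nonneg_left (key P μ 𝓕 (fun n => g n x') (hP x' hx') F L hL) hN

private theorem ASa_le_one {y : ℕ → ℝ} (hy : Prof P y) (j : ℕ) : |y j| ≤ 1 := by
  have h := hy 0 {j} (by rw [P.zero]; simp)
  rw [P.zero] at h
  simpa using h

/-- ROW ASa. The bound for finite sums, homogeneous in `x`: the sum is `Th (∑ j ∈ F, g j x • u j)`; `norm_Th_le`; for `x = 0` trivial; `g j x = ‖x‖ * g j (‖x‖⁻¹ x)`, so `∑ g j x • u j = ‖x‖ • ∑ ..`, `nX_smul`, `key` with `L = 0` for `‖x‖⁻¹ x`. -/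
theorem norm_sum_le {E : Type*} [NormedAddCommGroup E] [NormedSpace ℝ E] (g : ℕ → E →L[ℝ] ℝ)
    (hP : ∀ x : E, ‖x‖ ≤ 1 → Prof P (fun n => g n x)) (𝓕 : Fam P μ) (x : E) (F : Finset ℕ) :
    ‖∑ j ∈ F, Th P μ ((g j x) • 𝓕.u j)‖ ≤ 12 * ‖x‖ := by
  by_cases hx0 : x = 0
  · subst hx0
    simp [ASa_zero_smul]
  · have hn : ‖x‖ ≠ 0 := norm_ne_zero_iff.mpr hx0
    have hx' : ‖(‖x‖⁻¹ • x)‖ ≤ 1 := by
      rw [norm_smul, norm_inv, norm_norm, inv_mul_cancel₀ hn]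
    have h := ASa_scaled P μ g hP 𝓕 x (‖x‖⁻¹ • x) ‖x‖ (norm_nonneg _)
      (by rw [smul_smul, mul_inv_cancel₀ hn, one_smul]) hx' F 0
      (fun j _ => by
        rw [pow_zero]
        exact ASa_le_one P (hP _ hx') j)
    calc ‖∑ j ∈ F, Th P μ ((g j x) • 𝓕.u j)‖ ≤ ‖x‖ * (12 * (1 / 2) ^ 0) := h
      _ = 12 * ‖x‖ := by ring

/-- `summable_iff_vanishing_norm`. First `‖x‖ ≤ 1`: the set of `j` with `(1/64)^L < |g j x|` is finite (`Prof.finite`); for `F` disjoint from it `key` gives `≤ 12 (1/2)^L`.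
General `x`: apply the same estimate to `x' = (1/N) x`, `N ≥ ‖x‖`: the norm of the partial sum for `x` is at most `N *` (the bound for `x'`) since `g j x • u j = N • (g j x' • u j)` and `‖Th (N • v)‖ ≤ ∫ nX (N v) = N ∫ nX v`. -/
theorem summable_Q {E : Type*} [NormedAddCommGroup E] [NormedSpace ℝ E] (g : ℕ → E →L[ℝ] ℝ)
    (hP : ∀ x : E, ‖x‖ ≤ 1 → Prof P (fun n => g n x)) (𝓕 : Fam P μ) (x : E) :
    Summable fun j => Th P μ ((g j x) • 𝓕.u j) := by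
  rw [summable_iff_vanishing_norm]
  intro ε hε
  have hN : 0 < ‖x‖ + 1 := by positivity
  obtain ⟨L, hL⟩ : ∃ L : ℕ, (‖x‖ + 1) * (12 * (1 / 2) ^ L) < ε := by
    obtain ⟨L, hL⟩ := exists_pow_lt_of_lt_one
      (show (0 : ℝ) < ε / ((‖x‖ + 1) * 12) by positivity) (show (1 / 2 : ℝ) < 1 by norm_num)
    refine ⟨L, ?_⟩
    rw [lt_div_iff₀ (by positivity)] at hL
    linarith
  have hx' : ‖((‖x‖ + 1)⁻¹ • x)‖ ≤ 1 := by
    rw [norm_smul, norm_inv, Real.norm_of_nonneg hN.le, inv_mul_le_iff₀ hN]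
    linarith
  refine ⟨(Prof.finite P (hP _ hx') L).toFinset, fun t ht => ?_⟩
  refine lt_of_le_of_lt (ASa_scaled P μ g hP 𝓕 x ((‖x‖ + 1)⁻¹ • x) (‖x‖ + 1) hN.le
    (by rw [smul_smul, mul_inv_cancel₀ hN.ne', one_smul]) hx' t L fun j hj => ?_) hL
  by_contra hc
  push Not at hc
  exact Finset.disjoint_left.mp ht hj (by simpa using hc)

/-- The homomorphism `Q`: `Q x = ∑' j, ..`, additive since every term is additive in `x`. -/
theorem exists_Q {E : Type*} [NormedAddCommGroup E] [NormedSpace ℝ E] (g : ℕ → E →L[ℝ] ℝ)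
    (hP : ∀ x : E, ‖x‖ ≤ 1 → Prof P (fun n => g n x)) (𝓕 : Fam P μ) :
    ∃ Q : E →+ Lp (MM P) 1 μ, (∀ x, ‖Q x‖ ≤ 12 * ‖x‖) ∧
    ∀ x, HasSum (fun j => Th P μ ((g j x) • 𝓕.u j)) (Q x) := by
  let Q : E →+ Lp (MM P) 1 μ :=
    { toFun := fun x => ∑' j, Th P μ ((g j x) • 𝓕.u j)
      map_zero' := by simp [ASa_zero_smul]
      map_add' := fun x y => by
        rw [← (summable_Q P μ g hP 𝓕 x).tsum_add (summable_Q P μ g hP 𝓕 y)]
        refine tsum_congr fun j => ?_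
        rw [map_add, ASa_add_smul, map_add] }
  have hs : ∀ x, HasSum (fun j => Th P μ ((g j x) • 𝓕.u j)) (Q x) := fun x =>
    (summable_Q P μ g hP 𝓕 x).hasSum
  refine ⟨Q, fun x => ?_, hs⟩
  have h := (hs x).norm
  exact le_of_tendsto h (Eventually.of_forall fun F => norm_sum_le P μ g hP 𝓕 x F)

/-- `‖Th (t • u j)‖ ≤ |t| * 3 * 2 ^ lv j` (`norm_Th_le`, `nX_single_le`). -/
theorem norm_Th_u_le (𝓕 : Fam P μ) (j : ℕ) (t : ℝ) :
    ‖Th P μ (t • 𝓕.u j)‖ ≤ 3 * 2 ^ 𝓕.lv j * |t| := by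
  refine (norm_Th_le P μ _).trans ?_
  have h1 : ∀ s, nX P ((t • 𝓕.u j : SimpleFunc Ω (ℕ →₀ ℝ)) s) ≤ 3 * 2 ^ 𝓕.lv j * |t| := by
    intro s
    rw [SimpleFunc.coe_smul, Pi.smul_apply, nX_smul, mul_comm]
    refine mul_le_mul_of_nonneg_right ?_ (abs_nonneg t)
    have h2 : (𝓕.u j) s = uval P (𝓕.lv j) j (𝓕.a j s) := by
      simp [Fam.u]
    rw [h2]
    have h3 : (1 : ℝ) ≤ 2 ^ 𝓕.lv j := one_le_pow₀ (by norm_num)
    unfold uval
    split_ifs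
    · calc nX P (Finsupp.single (coord (𝓕.a j s) (𝓕.lv j) j) 1) ≤ 3 * |(1 : ℝ)| :=
          nX_single_le P _ _
        _ ≤ 3 * 2 ^ 𝓕.lv j := by
          rw [abs_one]
          linarith
    · calc nX P (Finsupp.single (coord (𝓕.a j s) 0 j) (2 ^ 𝓕.lv j)) ≤ 3 * |(2 : ℝ) ^ 𝓕.lv j| :=
          nX_single_le P _ _
        _ = 3 * 2 ^ 𝓕.lv j := by
          rw [abs_of_nonneg (by positivity)]
  calc ∫ s, nX P ((t • 𝓕.u j : SimpleFunc Ω (ℕ →₀ ℝ)) s) ∂μ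
      ≤ ∫ _ : Ω, 3 * 2 ^ 𝓕.lv j * |t| ∂μ :=
        integral_mono_of_nonneg (Eventually.of_forall fun s => nX_nonneg P _)
          (integrable_const _) (Eventually.of_forall h1)
    _ = 3 * 2 ^ 𝓕.lv j * |t| := by simp

end Pool.Agent.Lib.MP_a1a06b_an.LZ
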