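import Mathlib

set_option autoImplicit false

open Filter Topology

noncomputable section

namespace Pool.Agent.Lib.MP_a1a06b_an.LZ

private theorem OMa_key {E G : Type*} [NormedAddCommGroup E] [CompleteSpace E]
    [NormedAddCommGroup G] (Q : E →+ G) (C : ℝ) (hQ : ∀ x, ‖Q x‖ ≤ C * ‖x‖)
    (h1 : ∀ r : ℝ, 0 < r → ∃ η : ℝ, 0 < η ∧ ∀ y : G, ‖y‖ < η → ∀ η' : ℝ, 0 < η' →
      ∃ x, ‖x‖ < r ∧ ‖y - Q x‖ < η') (r : ℝ) (hr : 0 < r) :
    ∃ η : ℝ, 0 < η ∧ ∀ y : G, ‖y‖ < η → ∃ x, ‖x‖ < r ∧ Q x = y := by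
  have hrp : ∀ n : ℕ, 0 < r / 4 * (1 / 2) ^ n := fun n => by positivity
  choose η0 hη0 hη0' using fun n : ℕ => h1 (r / 4 * (1 / 2) ^ n) (hrp n)
  obtain ⟨η, hη⟩ : ∃ η : ℕ → ℝ, ∀ n, η n = min (η0 n) (1 / ((n : ℝ) + 1)) := ⟨_, fun _ => rfl⟩
  have hηpos : ∀ n, 0 < η n := by
    intro n
    rw [hη]
    exact lt_min (hη0 n) (by positivity)
  refine ⟨η 0, hηpos 0, ?_⟩
  intro y hy
  have step : ∀ (n : ℕ) (s : E), ‖y - Q s‖ < η n →
      ∃ s' : E, ‖s' - s‖ < r / 4 * (1 / 2) ^ n ∧ ‖y - Q s'‖ < η (n + 1) := by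
    intro n s hs
    obtain ⟨x, hx, hx'⟩ := hη0' n (y - Q s) (lt_of_lt_of_le hs (by rw [hη]; exact min_le_left _ _))
      (η (n + 1)) (hηpos _)
    refine ⟨s + x, by simpa using hx, ?_⟩
    rw [map_add, ← sub_sub]
    exact hx'
  choose nxt hnxt hnxt' using step
  have h00 : ‖y - Q 0‖ < η 0 := by simpa using hy
  let u : (n : ℕ) → {s : E // ‖y - Q s‖ < η n} := fun n =>
    Nat.rec (motive := fun n => {s : E // ‖y - Q s‖ < η n}) ⟨0, h00⟩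
      (fun n s => ⟨nxt n s.1 s.2, hnxt' n s.1 s.2⟩) n
  have hu0 : (u 0).1 = 0 := rfl
  have hus : ∀ n, (u (n + 1)).1 = nxt n (u n).1 (u n).2 := fun n => rfl
  have hd : ∀ n, dist ((u n).1) ((u (n + 1)).1) ≤ r / 4 * (1 / 2) ^ n := by
    intro n
    rw [dist_comm, dist_eq_norm, hus]
    exact (hnxt n (u n).1 (u n).2).le
  have hC : CauchySeq (fun n => (u n).1) :=
    cauchySeq_of_le_geometric (1 / 2) (r / 4) (by norm_num) hd
  obtain ⟨x, hx⟩ := cauchySeq_tendsto_of_complete hC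
  have hdx : dist ((u 0).1) x ≤ r / 4 / (1 - 1 / 2) :=
    dist_le_of_le_geometric_of_tendsto₀ (1 / 2) (r / 4) (by norm_num) hd hx
  have hQc : Continuous Q := AddMonoidHomClass.continuous_of_bound Q C hQ
  have h2 : Tendsto (fun n => Q (u n).1) atTop (𝓝 (Q x)) := (hQc.tendsto x).comp hx
  have h3 : Tendsto (fun n => Q (u n).1) atTop (𝓝 y) := by
    rw [tendsto_iff_norm_sub_tendsto_zero]
    refine squeeze_zero (fun n => norm_nonneg _) (fun n => ?_)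
      (tendsto_one_div_add_atTop_nhds_zero_nat (𝕜 := ℝ))
    rw [norm_sub_rev]
    exact (lt_of_lt_of_le (u n).2 (by rw [hη]; exact min_le_right _ _)).le
  refine ⟨x, ?_, tendsto_nhds_unique h2 h3⟩
  rw [hu0, dist_comm, dist_eq_norm, sub_zero] at hdx
  norm_num at hdx
  linarith

/-- ROW OM. Open mapping by successive approximation. For `r > 0` let `r_i = r / 2^(i+2)` and `η_i ≤ 1/(i+1)` the number of `h1` for `r_i`. If `‖y‖ < η_0` choose `x_0` with `‖x_0‖ < r_0`, `‖y - Q x_0‖ < η_1`, then `x_1`, `‖x_1‖ < r_1`, `‖y - Q x_0 - Q x_1‖ < η_2`, ...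
`x = ∑ x_i` converges (`∑ ‖x_i‖ < r`), `Q x = y` by continuity. So `Q (ball 0 r)` contains the ball of radius `η_0`, hence `Q` is open (translation); surjective: for `y` first choose by `h0` a point `x'` with `‖y - Q x'‖ < η_0`. -/
theorem open_mapping {E G : Type*} [NormedAddCommGroup E] [CompleteSpace E]
    [NormedAddCommGroup G] (Q : E →+ G) (C : ℝ) (hQ : ∀ x, ‖Q x‖ ≤ C * ‖x‖)
    (h0 : ∀ y : G, ∀ η : ℝ, 0 < η → ∃ x, ‖y - Q x‖ < η)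
    (h1 : ∀ r : ℝ, 0 < r → ∃ η : ℝ, 0 < η ∧ ∀ y : G, ‖y‖ < η → ∀ η' : ℝ, 0 < η' →
      ∃ x, ‖x‖ < r ∧ ‖y - Q x‖ < η') : Function.Surjective Q ∧ IsOpenMap Q := by
  constructor
  · intro y
    obtain ⟨η, hη, hk⟩ := OMa_key Q C hQ h1 1 one_pos
    obtain ⟨x', hx'⟩ := h0 y η hη
    obtain ⟨x, _, hx⟩ := hk _ hx'
    exact ⟨x + x', by rw [map_add, hx]; abel⟩
  · intro U hU
    rw [Metric.isOpen_iff] at hU ⊢
    rintro _ ⟨x, hxU, rfl⟩
    obtain ⟨r, hr, hrU⟩ := hU x hxU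
    obtain ⟨η, hη, hk⟩ := OMa_key Q C hQ h1 r hr
    refine ⟨η, hη, ?_⟩
    intro z hz
    rw [Metric.mem_ball, dist_eq_norm] at hz
    obtain ⟨x1, hx1, hx1'⟩ := hk _ hz
    refine ⟨x + x1, hrU ?_, by rw [map_add, hx1']; abel⟩
    rw [Metric.mem_ball, dist_eq_norm]
    simpa using hx1

end Pool.Agent.Lib.MP_a1a06b_an.LZ
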