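import Mathlib

set_option autoImplicit false

open Filter Topology

noncomputable section

namespace Pool.Agent.Lib.MP_a1a06b_an.LZ

/-- ROW OMb. `Q.ker` is closed (preimage of `{0}`); the homeomorphism is `QuotientAddGroup.quotientKerEquivOfSurjective Q hs`: continuous by the universal property of the quotient topology, its inverse is continuous since `Q` is a quotient map (open, continuous, surjective). -/
theorem quotient_homeo {E G : Type*} [NormedAddCommGroup E] [NormedAddCommGroup G] (Q : E →+ G)
    (hc : Continuous Q) (hs : Function.Surjective Q) (ho : IsOpenMap Q) :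
    IsClosed (Q.ker : Set E) ∧ Nonempty ((E ⧸ Q.ker) ≃ₜ+ G) := by
  constructor
  · have h1 : (Q.ker : Set E) = Q ⁻¹' {0} := by
      ext x
      simp [AddMonoidHom.mem_ker]
    rw [h1]
    exact isClosed_singleton.preimage hc
  · let e : (E ⧸ Q.ker) ≃+ G := QuotientAddGroup.quotientKerEquivOfSurjective Q hs
    have he : ∀ x : E, e (x : E ⧸ Q.ker) = Q x := fun x => rfl
    have hcont : Continuous e := by
      rw [(QuotientAddGroup.isQuotientMap_mk (N := Q.ker)).continuous_iff]
      exact hc
    have hcont' : Continuous e.symm := by
      rw [(ho.isQuotientMap hc hs).continuous_iff]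
      have h2 : (e.symm ∘ Q : E → E ⧸ Q.ker) = QuotientAddGroup.mk := by
        funext x
        rw [Function.comp_apply, ← he x, AddEquiv.symm_apply_apply]
      rw [h2]
      exact continuous_quot_mk
    exact ⟨{ e with
      continuous_toFun := hcont
      continuous_invFun := hcont' }⟩

end Pool.Agent.Lib.MP_a1a06b_an.LZ
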