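import Pool.Agent.Lib.MP_a1a06b_an.LZ.ASa
import Pool.Agent.Lib.MP_a1a06b_an.LZ.OMa
import Pool.Agent.Lib.MP_a1a06b_an.LZ.OMb

set_option autoImplicit false

open Finset MeasureTheory Filter Topology
open scoped Classical ENNReal

noncomputable section

namespace Pool.Agent.Lib.MP_a1a06b_an.LZ

variable (P : Par) {Ω : Type} [MeasurableSpace Ω] (μ : Measure Ω) [IsProbabilityMeasure μ]

/-- ROW ASb. `Q ((1/2)^(lv k) Z k) - h k = ∑_{j ≠ k} Th ((1/2)^(lv k) g j (Z k) • u j)` (`Fam.h_eq` for the term `j = k`), norm `≤ ∑_j 3 * 2^j * 8^{-j-k} = 4 * 8^{-k}` (`norm_Th_u_le`, `lv j ≤ j`, `(1/2)^(lv k) ≤ 1`). -/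
theorem Q_near {E : Type*} [NormedAddCommGroup E] [NormedSpace ℝ E] (g : ℕ → E →L[ℝ] ℝ)
    (𝓕 : Fam P μ) (hlv : ∀ j, 𝓕.lv j ≤ j) (Z : ℕ → E) (hZ1 : ∀ k, g k (Z k) = 1)
    (hZ2 : ∀ j k, j ≠ k → |g j (Z k)| ≤ (1 / 8) ^ (j + k)) (Q : E →+ Lp (MM P) 1 μ)
    (hQ : ∀ x, HasSum (fun j => Th P μ ((g j x) • 𝓕.u j)) (Q x)) (k : ℕ) :
    ‖Q ((1 / 2 : ℝ) ^ 𝓕.lv k • Z k) - 𝓕.h k‖ ≤ 4 * (1 / 8) ^ k := by
  have h1 := (hQ ((1 / 2 : ℝ) ^ 𝓕.lv k • Z k)).sub (hasSum_ite_eq k (𝓕.h k))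
  have h2 : HasSum (fun j : ℕ => 3 * (1 / 8 : ℝ) ^ k * (1 / 4) ^ j) (4 * (1 / 8) ^ k) := by
    have h3 := (hasSum_geometric_of_lt_one (r := (1 / 4 : ℝ)) (by norm_num)
      (by norm_num)).mul_left (3 * (1 / 8 : ℝ) ^ k)
    have h4 : 3 * (1 / 8 : ℝ) ^ k * (1 - 1 / 4)⁻¹ = 4 * (1 / 8) ^ k := by ring
    rwa [h4] at h3
  refine h1.norm_le_of_bounded h2 fun j => ?_
  by_cases hjk : j = k
  · subst hjk
    have h5 : g j ((1 / 2 : ℝ) ^ 𝓕.lv j • Z j) = (1 / 2 : ℝ) ^ 𝓕.lv j := by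
      rw [map_smul, hZ1, smul_eq_mul, mul_one]
    rw [h5, Fam.h_eq, if_pos rfl, sub_self, norm_zero]
    positivity
  · rw [if_neg hjk, sub_zero]
    refine (norm_Th_u_le P μ 𝓕 j _).trans ?_
    have h6 : |g j ((1 / 2 : ℝ) ^ 𝓕.lv k • Z k)| ≤ (1 / 8) ^ (j + k) := by
      rw [map_smul, smul_eq_mul, abs_mul]
      have h7 : |(1 / 2 : ℝ) ^ 𝓕.lv k| ≤ 1 := by
        rw [abs_of_nonneg (by positivity)]
        exact pow_le_one₀ (by norm_num) (by norm_num)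
      calc |(1 / 2 : ℝ) ^ 𝓕.lv k| * |g j (Z k)| ≤ 1 * (1 / 8) ^ (j + k) :=
            mul_le_mul h7 (hZ2 j k hjk) (abs_nonneg _) zero_le_one
        _ = (1 / 8) ^ (j + k) := one_mul _
    have h8 : (2 : ℝ) ^ 𝓕.lv j ≤ 2 ^ j := pow_le_pow_right₀ (by norm_num) (hlv j)
    calc 3 * 2 ^ 𝓕.lv j * |g j ((1 / 2 : ℝ) ^ 𝓕.lv k • Z k)|
        ≤ 3 * 2 ^ j * (1 / 8) ^ (j + k) :=
          mul_le_mul (mul_le_mul_of_nonneg_left h8 (by norm_num)) h6 (abs_nonneg _)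
            (by positivity)
      _ = 3 * (1 / 8) ^ k * (1 / 4) ^ j := by
          have h9 : (2 : ℝ) ^ j * (1 / 8) ^ j = (1 / 4) ^ j := by
            rw [← mul_pow]
            norm_num
          rw [pow_add, ← h9]
          ring

private theorem ASb_small {η : ℝ} (hη : 0 < η) : ∃ J : ℕ, ∀ j, J ≤ j →
    4 * (1 / 8 : ℝ) ^ j < η := by
  obtain ⟨J, hJ⟩ := exists_pow_lt_of_lt_one (show (0 : ℝ) < η / 4 by positivity)
    (show (1 / 8 : ℝ) < 1 by norm_num)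
  refine ⟨J, fun j hj => ?_⟩
  have h1 : (1 / 8 : ℝ) ^ j ≤ (1 / 8) ^ J :=
    pow_le_pow_of_le_one (by norm_num) (by norm_num) hj
  linarith

/-- Assembly: `exists_fam`, `exists_Q`, `Q_near`, `open_mapping`, `quotient_homeo`. For `h1`: given `r` choose `l` with `(1/2)^l * C < r`; the number of `exists_fam` for `l`; for `y`, `η'` choose `J` with `4 * (1/8)^J < η' / 2` and `j ≥ J` with
`lv j = l`, `‖y - h j‖ < η' / 2`; `x = (1/2)^l • Z j`. The same with `l = 0` for `h0`. -/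
theorem main {E : Type*} [NormedAddCommGroup E] [NormedSpace ℝ E] [CompleteSpace E]
    [IsSeparable μ] (g : ℕ → E →L[ℝ] ℝ)
    (hP : ∀ x : E, ‖x‖ ≤ 1 → Prof P (fun n => g n x)) (Z : ℕ → E) (C : ℝ)
    (hZ : ∀ k, ‖Z k‖ ≤ C) (hZ1 : ∀ k, g k (Z k) = 1)
    (hZ2 : ∀ j k, j ≠ k → |g j (Z k)| ≤ (1 / 8) ^ (j + k)) :
    ∃ H : AddSubgroup E, IsClosed (H : Set E) ∧ Nonempty ((E ⧸ H) ≃ₜ+ Lp (MM P) 1 μ) := by
  obtain ⟨𝓕, hlv, h0, h1⟩ := exists_fam P μ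
  obtain ⟨Q, hQ1, hQ2⟩ := exists_Q P μ g hP 𝓕
  have hnear : ∀ (y : Lp (MM P) 1 μ) (η : ℝ) (j : ℕ), ‖y - 𝓕.h j‖ < η / 2 →
      4 * (1 / 8 : ℝ) ^ j < η / 2 → ‖y - Q ((1 / 2 : ℝ) ^ 𝓕.lv j • Z j)‖ < η := by
    intro y η j hy hj
    have h2 := Q_near P μ g 𝓕 hlv Z hZ1 hZ2 Q hQ2 j
    have h3 : y - Q ((1 / 2 : ℝ) ^ 𝓕.lv j • Z j) =
        (y - 𝓕.h j) - (Q ((1 / 2 : ℝ) ^ 𝓕.lv j • Z j) - 𝓕.h j) := by abel
    have h4 := norm_sub_le (y - 𝓕.h j) (Q ((1 / 2 : ℝ) ^ 𝓕.lv j • Z j) - 𝓕.h j)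
    rw [h3]
    linarith
  have hopen := open_mapping Q 12 hQ1
    (by
      intro y η hη
      obtain ⟨J, hJ⟩ := ASb_small (half_pos hη)
      obtain ⟨j, hj, -, hj2⟩ := h0 y (η / 2) (half_pos hη) J
      exact ⟨_, hnear y η j hj2 (hJ j hj)⟩)
    (by
      intro r hr
      have hC : 0 ≤ C := (norm_nonneg _).trans (hZ 0)
      obtain ⟨l, hl⟩ : ∃ l : ℕ, (1 / 2 : ℝ) ^ l * C < r := by
        obtain ⟨l, hl⟩ := exists_pow_lt_of_lt_one (show (0 : ℝ) < r / (C + 1) by positivity)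
          (show (1 / 2 : ℝ) < 1 by norm_num)
        refine ⟨l, ?_⟩
        rw [lt_div_iff₀ (by positivity)] at hl
        have h5 : 0 < (1 / 2 : ℝ) ^ l := by positivity
        nlinarith
      obtain ⟨δ, hδ, hδ2⟩ := h1 l
      refine ⟨δ, hδ, fun y hy η hη => ?_⟩
      obtain ⟨J, hJ⟩ := ASb_small (half_pos hη)
      obtain ⟨j, hj, hjl, hj2⟩ := hδ2 y hy (η / 2) (half_pos hη) J
      refine ⟨_, ?_, hnear y η j hj2 (hJ j hj)⟩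
      rw [norm_smul, hjl, Real.norm_of_nonneg (by positivity)]
      exact (mul_le_mul_of_nonneg_left (hZ j) (by positivity)).trans_lt hl)
  have hcont : Continuous Q :=
    AddMonoidHomClass.continuous_of_bound Q 12 hQ1
  exact ⟨Q.ker, quotient_homeo Q hcont hopen.1 hopen.2⟩

end Pool.Agent.Lib.MP_a1a06b_an.LZ
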