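import Mathlib

set_option autoImplicit false

open MeasureTheory Topology

noncomputable section

namespace Pool.Agent.Lib.MP_a1a06b_an.LZ

private theorem CT_mem (M : Type) [NormedAddCommGroup M] (t : unitInterval)
    (h : Lp M 1 (volume : Measure unitInterval)) :
    MemLp ((Set.Ioi t).indicator (h : unitInterval → M)) 1 (volume : Measure unitInterval) :=
  (Lp.memLp h).indicator measurableSet_Ioi

/-- The truncation `h * 1_{s > t}`. -/
private def CT_T (M : Type) [NormedAddCommGroup M] (t : unitInterval)
    (h : Lp M 1 (volume : Measure unitInterval)) : Lp M 1 (volume : Measure unitInterval) :=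
  MemLp.toLp ((Set.Ioi t).indicator (h : unitInterval → M)) (CT_mem M t h)

private theorem CT_lip (M : Type) [NormedAddCommGroup M] (t : unitInterval) :
    LipschitzWith 1 (fun h : Lp M 1 (volume : Measure unitInterval) => CT_T M t h) := by
  refine LipschitzWith.of_dist_le_mul fun h h' => ?_
  rw [NNReal.coe_one, one_mul, dist_eq_norm, dist_eq_norm]
  unfold CT_T
  rw [← MemLp.toLp_sub]
  refine Lp.norm_le_norm_of_ae_le ?_
  filter_upwards [MemLp.coeFn_toLp ((CT_mem M t h).sub (CT_mem M t h')), Lp.coeFn_sub h h'] with s hs hs'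
  rw [hs, hs']
  by_cases hst : s ∈ Set.Ioi t
  · simp [Pi.sub_apply, Set.indicator_of_mem hst]
  · simp [Pi.sub_apply, Set.indicator_of_notMem hst]

private theorem CT_cont (M : Type) [NormedAddCommGroup M]
    (h : Lp M 1 (volume : Measure unitInterval)) :
    Continuous (fun t : unitInterval => CT_T M t h) := by
  rw [continuous_iff_continuousAt]
  intro t
  unfold ContinuousAt CT_T
  rw [Lp.tendsto_Lp_iff_tendsto_eLpNorm'']
  simp only [eLpNorm_one_eq_lintegral_enorm]
  have h0 : (∫⁻ s : unitInterval, (0 : ENNReal) ∂volume) = 0 := by simp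
  rw [← h0]
  refine tendsto_lintegral_filter_of_dominated_convergence' (fun s => ‖(h : unitInterval → M) s‖ₑ)
    ?_ ?_ ?_ ?_
  · refine Filter.Eventually.of_forall fun t' => ?_
    exact (((Lp.aestronglyMeasurable h).indicator measurableSet_Ioi).sub
      ((Lp.aestronglyMeasurable h).indicator measurableSet_Ioi)).enorm
  · refine Filter.Eventually.of_forall fun t' => Filter.Eventually.of_forall fun s => ?_
    rw [Pi.sub_apply]
    by_cases h1 : s ∈ Set.Ioi t' <;> by_cases h2 : s ∈ Set.Ioi t <;> simp [h1, h2, Set.indicator]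
  · have h3 := (Lp.memLp h).eLpNorm_lt_top
    rw [eLpNorm_one_eq_lintegral_enorm] at h3
    exact h3.ne
  · have hn : ∀ᵐ s : unitInterval ∂volume, s ≠ t := by
      rw [ae_iff]; simp
    filter_upwards [hn] with s hs
    refine tendsto_nhds_of_eventually_eq ?_
    rcases lt_or_gt_of_ne hs with hlt | hgt
    · have h4 : ∀ᶠ t' in 𝓝 t, s < t' := eventually_gt_nhds hlt
      filter_upwards [h4] with t' ht'
      rw [Pi.sub_apply, Set.indicator_of_notMem (by simp [ht'.le]),
        Set.indicator_of_notMem (by simp [hlt.le])]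
      simp
    · have h4 : ∀ᶠ t' in 𝓝 t, t' < s := eventually_lt_nhds hgt
      filter_upwards [h4] with t' ht'
      rw [Pi.sub_apply, Set.indicator_of_mem (by exact ht'),
        Set.indicator_of_mem (by exact hgt)]
      simp

private theorem CT_zero (M : Type) [NormedAddCommGroup M]
    (h : Lp M 1 (volume : Measure unitInterval)) : CT_T M 0 h = h := by
  unfold CT_T
  have hn : ∀ᵐ s : unitInterval ∂volume, s ≠ 0 := by
    rw [ae_iff]; simp
  have h1 := MemLp.coeFn_toLp (CT_mem M 0 h)
  refine Lp.ext ?_
  filter_upwards [h1, hn] with s hs hs0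
  have hp : (0 : unitInterval) < s := unitInterval.pos_iff_ne_zero.mpr hs0
  rw [hs, Set.indicator_of_mem (Set.mem_Ioi.mpr hp)]

private theorem CT_one (M : Type) [NormedAddCommGroup M]
    (h : Lp M 1 (volume : Measure unitInterval)) : CT_T M 1 h = 0 := by
  unfold CT_T
  have h1 := MemLp.coeFn_toLp (CT_mem M 1 h)
  have h0 := Lp.coeFn_zero M 1 (volume : Measure unitInterval)
  refine Lp.ext ?_
  filter_upwards [h1, h0] with s hs hs0
  have hp : ¬ (1 : unitInterval) < s := not_lt.mpr unitInterval.le_one'
  rw [hs, hs0, Set.indicator_of_notMem (fun h => hp (Set.mem_Ioi.mp h)), Pi.zero_apply]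

/-- ROW CT. The homotopy `(t, h) ↦ h * 1_{s > t}` (`MemLp.indicator`), `t ∈ [0,1]`: it is the identity for `t = 0` (the point `0` is a null set) and `0` for `t = 1`.
Jointly continuous: `‖T_t h - T_t' h'‖ ≤ ‖h - h'‖ + ∫_{(t, t']} ‖h'‖`, and the last term tends to `0` as `t' → t` (absolute continuity of the integral). -/
theorem contractible_Lp (M : Type) [NormedAddCommGroup M] :
    ContractibleSpace (Lp M 1 (volume : Measure unitInterval)) := by
  rw [contractible_iff_id_nullhomotopic]
  have hc : Continuous (fun p : unitInterval × Lp M 1 (volume : Measure unitInterval) =>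
      CT_T M p.1 p.2) :=
    continuous_prod_of_continuous_lipschitzWith' (fun p : unitInterval ×
      Lp M 1 (volume : Measure unitInterval) => CT_T M p.1 p.2) 1 (fun t => CT_lip M t)
      (fun h => CT_cont M h)
  exact ⟨0, ⟨⟨⟨fun p => CT_T M p.1 p.2, hc⟩, fun h => CT_zero M h, fun h => CT_one M h⟩⟩⟩

end Pool.Agent.Lib.MP_a1a06b_an.LZ
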