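import Pool.Agent.Lib.MP_a1a06b_an.LZ.THa

set_option autoImplicit false

open Finset MeasureTheory
open scoped Classical ENNReal

noncomputable section

namespace Pool.Agent.Lib.MP_a1a06b_an.LZ

variable (P : Par) {Ω : Type} [MeasurableSpace Ω] (μ : Measure Ω) [IsProbabilityMeasure μ]

/-- ROW FA (approximation). Choose a simple function `g : Ω → MM P` with `‖h - g‖ < η / 2` in `L¹` and `‖g‖ < δ β` (`MemLp.exists_simpleFunc_eLpNorm_sub_lt` or `Lp.simpleFunc.denseRange`;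
if `‖h‖ < δ β` is not assumed there is nothing to prove for the second part). For every `v : MM P` choose `x v` with `‖v - cls (ratv (x v))‖ < η / 2` and `nX (ratv (x v)) < δ` if `‖v‖ < δ` (`exists_rat` with `r = δ`, resp. `r = ‖v‖ + 1`).
`a := g.map x`. Then `‖g - Th (a.map ratv)‖ = ∫ ‖g s - cls (ratv (x (g s)))‖ ≤ η / 2`; and `{s | ¬ nX (ratv (a s)) < δ} ⊆ {s | δ ≤ ‖g s‖}`, of measure `≤ ‖g‖ / δ < β` (Markov, `mul_meas_ge_le_lintegral` or `meas_ge_le_lintegral_div`). -/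
theorem exists_simple (h : Lp (MM P) 1 μ) {η δ β : ℝ} (hη : 0 < η) (hδ : 0 < δ) (hβ : 0 < β) :
    ∃ a : SimpleFunc Ω (ℕ →₀ ℚ), ‖h - Th P μ (a.map ratv)‖ < η ∧
      (‖h‖ < δ * β → μ {s | ¬ nX P (ratv (a s)) < δ} ≤ ENNReal.ofReal β) := by
  obtain ⟨ε, hε, hε1, hε2⟩ : ∃ ε : ℝ, 0 < ε ∧ ε ≤ η / 2 ∧ (‖h‖ < δ * β → ε ≤ δ * β - ‖h‖) := by
    by_cases hc : ‖h‖ < δ * β
    · exact ⟨min (η / 2) (δ * β - ‖h‖), lt_min (by linarith) (by linarith), min_le_left _ _,
        fun _ => min_le_right _ _⟩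
    · exact ⟨η / 2, by linarith, le_rfl, fun hc' => absurd hc' hc⟩
  obtain ⟨g, hg1, hg2⟩ := (Lp.memLp h).exists_simpleFunc_eLpNorm_sub_lt ENNReal.one_ne_top
    (ε := ENNReal.ofReal ε) (by simpa using hε)
  have hx : ∀ v : MM P, ∃ x : ℕ →₀ ℚ, ‖v - cls P (ratv x)‖ ≤ η / 2 ∧ (‖v‖ < δ → nX P (ratv x) < δ) := by
    intro v
    by_cases hv : ‖v‖ < δ
    · obtain ⟨x, hx1, hx2⟩ := exists_rat P v hv (half_pos hη)
      exact ⟨x, hx2.le, fun _ => hx1⟩
    · obtain ⟨x, hx1, hx2⟩ := exists_rat P v (lt_add_one ‖v‖) (half_pos hη)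
      exact ⟨x, hx2.le, fun hv' => absurd hv' hv⟩
  choose x hx1 hx2 using hx
  have hgL : ‖h - hg2.toLp g‖ < ε := by
    have e : h - hg2.toLp g = ((Lp.memLp h).sub hg2).toLp (⇑h - ⇑g) := by
      rw [MemLp.toLp_sub (Lp.memLp h) hg2, Lp.toLp_coeFn]
    rw [e, Lp.norm_toLp]
    exact ENNReal.toReal_lt_of_lt_ofReal hg1
  refine ⟨g.map x, ?_, ?_⟩
  · have hm : MemLp (⇑(((g.map x).map ratv).map (cls P))) 1 μ :=
      (((g.map x).map ratv).map (cls P)).memLp_of_isFiniteMeasure 1 μ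
    have e2 : ‖hg2.toLp g - Th P μ ((g.map x).map ratv)‖ ≤ η / 2 := by
      have e : hg2.toLp g - Th P μ ((g.map x).map ratv) =
          (hg2.sub hm).toLp (⇑g - ⇑(((g.map x).map ratv).map (cls P))) := by
        rw [MemLp.toLp_sub hg2 hm]
        rfl
      rw [e, Lp.norm_toLp]
      refine ENNReal.toReal_le_of_le_ofReal (by linarith) ?_
      refine (eLpNorm_le_of_ae_bound (C := η / 2) (Filter.Eventually.of_forall fun s => ?_)).trans ?_
      · show ‖g s - cls P (ratv (x (g s)))‖ ≤ η / 2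
        exact hx1 (g s)
      · simp
    calc ‖h - Th P μ ((g.map x).map ratv)‖
        = ‖(h - hg2.toLp g) + (hg2.toLp g - Th P μ ((g.map x).map ratv))‖ := by
          congr 1
          abel
      _ ≤ ‖h - hg2.toLp g‖ + ‖hg2.toLp g - Th P μ ((g.map x).map ratv)‖ := norm_add_le _ _
      _ < η := by linarith
  · intro hc
    have hgn : ‖hg2.toLp g‖ ≤ δ * β := by
      have := hε2 hc
      have h3 : ‖hg2.toLp g‖ ≤ ‖h‖ + ‖h - hg2.toLp g‖ := by
        have : hg2.toLp g = h - (h - hg2.toLp g) := by abel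
        calc ‖hg2.toLp g‖ = ‖h - (h - hg2.toLp g)‖ := by rw [← this]
          _ ≤ ‖h‖ + ‖h - hg2.toLp g‖ := norm_sub_le _ _
      linarith
    have hE : eLpNorm g 1 μ ≤ ENNReal.ofReal (δ * β) := by
      rw [Lp.norm_toLp] at hgn
      exact (ENNReal.le_ofReal_iff_toReal_le hg2.eLpNorm_ne_top (by positivity)).2 hgn
    have hsub : {s | ¬ nX P (ratv ((g.map x) s)) < δ} ⊆ {s | ENNReal.ofReal δ ≤ ‖g s‖ₑ} := by
      intro s hs
      by_contra hs'
      apply hs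
      apply hx2
      simp only [Set.mem_ofPred_eq, not_le] at hs'
      rw [← ofReal_norm] at hs'
      exact (ENNReal.ofReal_lt_ofReal_iff hδ).1 hs'
    have hM := mul_meas_ge_le_pow_eLpNorm' (p := 1) μ one_ne_zero ENNReal.one_ne_top
      hg2.aestronglyMeasurable (ENNReal.ofReal δ)
    simp only [ENNReal.toReal_one, ENNReal.rpow_one] at hM
    have h5 : ENNReal.ofReal δ * μ {s | ENNReal.ofReal δ ≤ ‖g s‖ₑ} ≤
        ENNReal.ofReal δ * ENNReal.ofReal β := by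
      refine hM.trans (hE.trans ?_)
      rw [ENNReal.ofReal_mul hδ.le]
    have h6 : μ {s | ENNReal.ofReal δ ≤ ‖g s‖ₑ} ≤ ENNReal.ofReal β := by
      rwa [ENNReal.mul_le_mul_iff_right (by simpa using hδ) ENNReal.ofReal_ne_top] at h5
    exact (measure_mono hsub).trans h6

end Pool.Agent.Lib.MP_a1a06b_an.LZ
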