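import Pool.Agent.Lib.MP_a1a06b_an.LZ.FA

set_option autoImplicit false

open Finset MeasureTheory
open scoped Classical ENNReal

noncomputable section

namespace Pool.Agent.Lib.MP_a1a06b_an.LZ

variable {P : Par} {Ω : Type} [MeasurableSpace Ω] {μ : Measure Ω} [IsProbabilityMeasure μ]

/-- The element of `L¹` given by the member `j` of the family. -/
def Fam.h (𝓕 : Fam P μ) (j : ℕ) : Lp (MM P) 1 μ := Th P μ ((𝓕.a j).map ratv)

/-- `Th_congr`, `cls_uval`. -/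
theorem Fam.h_eq (𝓕 : Fam P μ) (j : ℕ) :
    Th P μ ((1 / 2 : ℝ) ^ 𝓕.lv j • 𝓕.u j) = 𝓕.h j := by
  refine Th_congr P μ _ _ fun s => ?_
  show cls P ((1 / 2 : ℝ) ^ 𝓕.lv j • uval P (𝓕.lv j) j (𝓕.a j s)) = cls P (ratv (𝓕.a j s))
  exact cls_uval P (𝓕.lv j) j (𝓕.a j s)

variable (P μ)

/-- The members of level `l`. -/
private def FB_D (l : ℕ) : Set (SimpleFunc Ω (ℕ →₀ ℚ)) :=
  {a | μ {s | ¬ Good P (a s) l} ≤ ENNReal.ofReal (1 / (16 ^ l * (P.A l : ℝ)))}

private theorem FB_zero_mem (l : ℕ) : (0 : SimpleFunc Ω (ℕ →₀ ℚ)) ∈ FB_D P μ l := by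
  have h0 : ratv 0 = 0 := by
    ext i
    rw [ratv_apply]
    simp
  have h1 : {s : Ω | ¬ Good P ((0 : SimpleFunc Ω (ℕ →₀ ℚ)) s) l} = ∅ := by
    ext s
    simp only [Set.mem_ofPred_eq, Set.mem_empty_iff_false, iff_false, not_not]
    right
    have h2 : (0 : SimpleFunc Ω (ℕ →₀ ℚ)) s = 0 := rfl
    rw [h2, h0, nX_zero]
    exact one_div_pos.2 (A_pos P l)
  show μ {s : Ω | ¬ Good P ((0 : SimpleFunc Ω (ℕ →₀ ℚ)) s) l} ≤ _
  rw [h1]
  simp

private theorem FB_seq [IsSeparable μ] (l : ℕ) :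
    ∃ a : ℕ → SimpleFunc Ω (ℕ →₀ ℚ), (∀ i, a i ∈ FB_D P μ l) ∧
      ∀ b ∈ FB_D P μ l, ∀ ε : ℝ, 0 < ε →
        ∃ i, ‖Th P μ (b.map ratv) - Th P μ ((a i).map ratv)‖ < ε := by
  have : TopologicalSpace.SeparableSpace (MM P) := separable_MM P
  have : Fact ((1 : ℝ≥0∞) ≠ ∞) := ⟨ENNReal.one_ne_top⟩
  have : SecondCountableTopology (Lp (MM P) 1 μ) := inferInstance
  have hs : TopologicalSpace.IsSeparable
      ((fun b : SimpleFunc Ω (ℕ →₀ ℚ) => Th P μ (b.map ratv)) '' FB_D P μ l) :=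
    TopologicalSpace.IsSeparable.of_separableSpace _
  obtain ⟨t, hts, htc, htd⟩ := hs.exists_countable_dense_subset
  have hne : t.Nonempty := by
    have h1 : Th P μ ((0 : SimpleFunc Ω (ℕ →₀ ℚ)).map ratv) ∈ closure t :=
      htd ⟨0, FB_zero_mem P μ l, rfl⟩
    exact closure_nonempty_iff.1 ⟨_, h1⟩
  obtain ⟨f, hf⟩ := htc.exists_eq_range hne
  have h2 : ∀ i, ∃ a ∈ FB_D P μ l, Th P μ (SimpleFunc.map ratv a) = f i := by
    intro i
    have h3 : f i ∈ t := by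
      rw [hf]
      exact ⟨i, rfl⟩
    obtain ⟨a, ha, hb⟩ := hts h3
    exact ⟨a, ha, hb⟩
  choose a ha1 ha2 using h2
  refine ⟨a, ha1, fun b hb ε hε => ?_⟩
  have h3 : Th P μ (b.map ratv) ∈ closure t := htd ⟨b, hb, rfl⟩
  obtain ⟨y, hy, hy2⟩ := Metric.mem_closure_iff.1 h3 ε hε
  rw [hf] at hy
  obtain ⟨i, rfl⟩ := hy
  refine ⟨i, ?_⟩
  rw [ha2, ← dist_eq_norm]
  exact hy2

/-- ROW FB. For every level `l` let `𝒟 l` be the set of the simple functions `a` with `μ {s | ¬ Good P (a s) l} ≤ ofReal (1 / (16^l A l))` (all `a` for `l = 0`: then the set is empty; the zero function is a member for every `l`).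
`Lp (MM P) 1 μ` is second countable (`separable_MM`, `Lp.SecondCountableTopology`), so `𝒟 l` contains a sequence `a l i` such that the classes `Th ((a l i).map ratv)` are dense in the set of classes of all members of `𝒟 l`
(`TopologicalSpace.IsSeparable.of_separableSpace`, `..exists_countable_dense_subset`, or `Set.Countable` dense subset of a subspace). Put `lv j = (unpair (unpair j).1).1`, `a j = a (lv j) ((unpair (unpair j).1).2)`; `lv j ≤ j` (`Nat.unpair_left_le`), and every pair `(l, i)` occurs for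
arbitrarily large `j` (`j = pair (pair l i) J ≥ J`). Then `exists_simple` (with `δ = 1 / A l`, `β = 1 / (16^l A l)`; for `l = 0` any `δ, β` and `Good` is always true) gives the two density statements; `r = δ β`. -/
theorem exists_fam [IsSeparable μ] : ∃ 𝓕 : Fam P μ, (∀ j, 𝓕.lv j ≤ j) ∧
    (∀ (h : Lp (MM P) 1 μ) (η : ℝ), 0 < η → ∀ J : ℕ, ∃ j, J ≤ j ∧ 𝓕.lv j = 0 ∧
      ‖h - 𝓕.h j‖ < η) ∧
    (∀ l : ℕ, ∃ r : ℝ, 0 < r ∧ ∀ h : Lp (MM P) 1 μ, ‖h‖ < r → ∀ η : ℝ, 0 < η → ∀ J : ℕ,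
      ∃ j, J ≤ j ∧ 𝓕.lv j = l ∧ ‖h - 𝓕.h j‖ < η) := by
  choose A hA1 hA2 using fun l => FB_seq P μ l
  let 𝓕 : Fam P μ :=
    { lv := fun j => (Nat.unpair (Nat.unpair j).1).1
      a := fun j => A (Nat.unpair (Nat.unpair j).1).1 (Nat.unpair (Nat.unpair j).1).2
      bad := fun j => hA1 _ _ }
  have key : ∀ (l i J : ℕ), 𝓕.lv (Nat.pair (Nat.pair l i) J) = l ∧
      𝓕.h (Nat.pair (Nat.pair l i) J) = Th P μ ((A l i).map ratv) := by
    intro l i J
    have h1 : (Nat.unpair (Nat.pair (Nat.pair l i) J)).1 = Nat.pair l i := by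
      rw [Nat.unpair_pair]
    have h2 : (Nat.unpair (Nat.pair l i)).1 = l := by rw [Nat.unpair_pair]
    have h3 : (Nat.unpair (Nat.pair l i)).2 = i := by rw [Nat.unpair_pair]
    constructor
    · show (Nat.unpair (Nat.unpair (Nat.pair (Nat.pair l i) J)).1).1 = l
      rw [h1, h2]
    · show Th P μ ((A (Nat.unpair (Nat.unpair (Nat.pair (Nat.pair l i) J)).1).1
        (Nat.unpair (Nat.unpair (Nat.pair (Nat.pair l i) J)).1).2).map ratv) = _
      rw [h1, h2, h3]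
  have step : ∀ (l : ℕ) (h : Lp (MM P) 1 μ) (η : ℝ), 0 < η → ∀ J : ℕ,
      ∀ b ∈ FB_D P μ l, ‖h - Th P μ (b.map ratv)‖ < η / 2 →
      ∃ j, J ≤ j ∧ 𝓕.lv j = l ∧ ‖h - 𝓕.h j‖ < η := by
    intro l h η hη J b hb hhb
    obtain ⟨i, hi⟩ := hA2 l b hb (η / 2) (by linarith)
    refine ⟨Nat.pair (Nat.pair l i) J, Nat.right_le_pair _ _, (key l i J).1, ?_⟩
    rw [(key l i J).2]
    calc ‖h - Th P μ ((A l i).map ratv)‖
        = ‖(h - Th P μ (b.map ratv)) + (Th P μ (b.map ratv) - Th P μ ((A l i).map ratv))‖ := by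
          rw [sub_add_sub_cancel]
      _ ≤ ‖h - Th P μ (b.map ratv)‖ + ‖Th P μ (b.map ratv) - Th P μ ((A l i).map ratv)‖ :=
          norm_add_le _ _
      _ < η := by linarith
  refine ⟨𝓕, fun j => ?_, fun h η hη J => ?_, fun l => ?_⟩
  · exact (Nat.unpair_left_le _).trans (Nat.unpair_left_le _)
  · obtain ⟨a, ha, -⟩ := exists_simple P μ h (half_pos hη) one_pos one_pos
    refine step 0 h η hη J a ?_ ha
    have h1 : {s : Ω | ¬ Good P (a s) 0} = ∅ := by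
      ext s
      simp only [Set.mem_ofPred_eq, Set.mem_empty_iff_false, iff_false, not_not]
      exact Or.inl rfl
    show μ {s : Ω | ¬ Good P (a s) 0} ≤ _
    rw [h1]
    simp
  · have hA : (0 : ℝ) < P.A l := A_pos P l
    have hδ : (0 : ℝ) < 1 / P.A l := one_div_pos.2 hA
    have hβ : (0 : ℝ) < 1 / (16 ^ l * (P.A l : ℝ)) := one_div_pos.2 (by positivity)
    refine ⟨1 / P.A l * (1 / (16 ^ l * (P.A l : ℝ))), mul_pos hδ hβ, fun h hh η hη J => ?_⟩
    obtain ⟨a, ha, hb⟩ := exists_simple P μ h (half_pos hη) hδ hβ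
    refine step l h η hη J a ?_ ha
    refine (measure_mono ?_).trans (hb hh)
    intro s hs hc
    exact hs (Or.inr hc)

end Pool.Agent.Lib.MP_a1a06b_an.LZ
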