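import Pool.Agent.Lib.MP_a1a06b_an.LZ.X2

/-!
The group `MM P`: completion of `c₀₀ / Gam P` for the norm `nX P`, where `Gam P` is generated by the relations
`x = (1/2) ^ l * e_(m+1)`; `(x, l, _) = rel m`, `l = 0` or `nX P x < 1 / A l`.
-/

set_option autoImplicit false

open Finset
open scoped Classical

noncomputable section

namespace Pool.Agent.Lib.MP_a1a06b_an.LZ

/-- The space of finitely supported real sequences with the norm `nX P`. -/
def VX (_ : Par) : Type := ℕ →₀ ℝ

variable (P : Par)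

instance : AddCommGroup (VX P) := inferInstanceAs (AddCommGroup (ℕ →₀ ℝ))

/-- The norm `nX P`. -/
def nXnorm : AddGroupNorm (VX P) where
  toFun := fun v => nX P v
  map_zero' := nX_zero P
  add_le' := fun v w => nX_add_le P v w
  neg' := fun v => nX_neg P v
  eq_zero_of_map_eq_zero' := fun _ h => nX_eq_zero P h

instance : NormedAddCommGroup (VX P) := AddGroupNorm.toNormedAddCommGroup (nXnorm P)

theorem norm_VX (v : VX P) : ‖v‖ = nX P v := rfl

/-- Finitely supported rational sequences as real ones. -/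
def ratv (x : ℕ →₀ ℚ) : ℕ →₀ ℝ := x.mapRange (fun r : ℚ => (r : ℝ)) Rat.cast_zero

theorem ratv_apply (x : ℕ →₀ ℚ) (i : ℕ) : ratv x i = (x i : ℝ) := by
  simp [ratv]

/-- Enumeration of the relations. -/
theorem exists_rel : ∃ rel : ℕ → (ℕ →₀ ℚ) × ℕ × ℕ,
    (∀ m, ∀ i ∈ (rel m).1.support, i ≤ m) ∧ Function.Surjective rel := by
  obtain ⟨e, he⟩ := exists_surjective_nat ((ℕ →₀ ℚ) × ℕ × ℕ)
  refine ⟨fun m => if ∀ i ∈ (e m.unpair.1).1.support, i ≤ m then e m.unpair.1 else (0, 0, 0),
    fun m i hi => ?_, fun t => ?_⟩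
  · dsimp only at hi
    by_cases h : ∀ i ∈ (e m.unpair.1).1.support, i ≤ m
    · have hi' : i ∈ (e m.unpair.1).1.support := by rwa [if_pos h] at hi
      exact h i hi'
    · have hi' : i ∈ (0 : ℕ →₀ ℚ).support := by rwa [if_neg h] at hi
      simp at hi'
  · obtain ⟨a, ha⟩ := he t
    refine ⟨Nat.pair a (t.1.support.sup id), ?_⟩
    have h1 : (Nat.unpair (Nat.pair a (t.1.support.sup id))).1 = a := by
      rw [Nat.unpair_pair]
    have h2 : ∀ i ∈ (e (Nat.unpair (Nat.pair a (t.1.support.sup id))).1).1.support,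
        i ≤ Nat.pair a (t.1.support.sup id) := by
      intro i hi
      rw [h1, ha] at hi
      exact (Finset.le_sup (f := id) hi).trans (Nat.right_le_pair _ _)
    simp only [h1, ha] at h2 ⊢
    exact if_pos h2

/-- The relation attached to the coordinate `m + 1`. -/
def rel : ℕ → (ℕ →₀ ℚ) × ℕ × ℕ := Classical.choose exists_rel

theorem rel_supp (m i : ℕ) (hi : i ∈ (rel m).1.support) : i ≤ m :=
  (Classical.choose_spec exists_rel).1 m i hi

theorem rel_surj : Function.Surjective rel := (Classical.choose_spec exists_rel).2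

/-- The coordinate of a relation. -/
def coord (x : ℕ →₀ ℚ) (l j : ℕ) : ℕ := Function.surjInv rel_surj (x, l, j) + 1

theorem coord_inj {x x' : ℕ →₀ ℚ} {l l' j j' : ℕ} (h : coord x l j = coord x' l' j') :
    x = x' ∧ l = l' ∧ j = j' := by
  have h1 : Function.surjInv rel_surj (x, l, j) = Function.surjInv rel_surj (x', l', j') :=
    Nat.succ_injective h
  have h2 := Function.injective_surjInv rel_surj h1
  simpa [Prod.ext_iff] using h2

/-- The admissible relations. -/
def Good (x : ℕ →₀ ℚ) (l : ℕ) : Prop := l = 0 ∨ nX P (ratv x) < 1 / P.A l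

/-- The generators of `Gam P`. -/
def gen (m : ℕ) : ℕ →₀ ℝ :=
  if Good P (rel m).1 (rel m).2.1 then
    ratv (rel m).1 - Finsupp.single (m + 1) ((1 / 2) ^ (rel m).2.1)
  else 0

/-- The group of relations. -/
def Gam : AddSubgroup (VX P) := AddSubgroup.closure (Set.range (fun m => (gen P m : VX P)))

/-- The group `M`. -/
abbrev MM : Type := UniformSpace.Completion (VX P ⧸ Gam P)

/-- The class of a vector. -/
def cls : (ℕ →₀ ℝ) →+ MM P :=
  (UniformSpace.Completion.toCompl.comp (QuotientAddGroup.mk' (Gam P)) : VX P →+ MM P)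

theorem norm_cls_le (v : ℕ →₀ ℝ) : ‖cls P v‖ ≤ nX P v := by
  show ‖((QuotientAddGroup.mk' (Gam P) (v : VX P) : VX P ⧸ Gam P) : MM P)‖ ≤ _
  rw [UniformSpace.Completion.norm_coe]
  exact QuotientAddGroup.norm_mk_le_norm

/-- The relations hold in `M`. -/
theorem cls_rel {x : ℕ →₀ ℚ} {l : ℕ} (h : Good P x l) (j : ℕ) :
    cls P (ratv x) = cls P (Finsupp.single (coord x l j) ((1 / 2) ^ l)) := by
  have hr : rel (Function.surjInv rel_surj (x, l, j)) = (x, l, j) := Function.surjInv_eq rel_surj _
  have hg : gen P (Function.surjInv rel_surj (x, l, j)) =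
      ratv x - Finsupp.single (coord x l j) ((1 / 2) ^ l) := by
    unfold gen
    rw [hr, if_pos h]
    rfl
  have hm : (gen P (Function.surjInv rel_surj (x, l, j)) : VX P) ∈ Gam P :=
    AddSubgroup.subset_closure ⟨_, rfl⟩
  have h0 : cls P (gen P (Function.surjInv rel_surj (x, l, j))) = 0 := by
    show UniformSpace.Completion.toCompl (QuotientAddGroup.mk' (Gam P)
      (gen P (Function.surjInv rel_surj (x, l, j)) : VX P)) = 0
    have : QuotientAddGroup.mk' (Gam P) (gen P (Function.surjInv rel_surj (x, l, j)) : VX P) = 0 :=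
      (QuotientAddGroup.eq_zero_iff _).2 hm
    rw [this, map_zero]
  rw [hg, map_sub, sub_eq_zero] at h0
  exact h0

end Pool.Agent.Lib.MP_a1a06b_an.LZ
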