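import Pool.Agent.Lib.MP_a1a06b_an.LZ.M0

set_option autoImplicit false

open Finset
open scoped Classical

noncomputable section

namespace Pool.Agent.Lib.MP_a1a06b_an.LZ

variable (P : Par)

/-- ROW M1. No distortion. Induction on `N`. Let `u` be the vector for `N`: `u i = 0` for `i > N` (`gen_supp`), `1 ≤ nX u`. If `gen N = 0` or `k = k_N = 0`: trivial. Otherwise
`gen N = x - 2^{-l} e_(N+1)`, `x = ratv (rel N).1`; let `z = u + k x`, so `z i = 0` for `i > N`, and the new vector is `z + single (N+1) (- k 2^{-l})`.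
If `1 < nX z`: `nX_fresh_mono`. If `nX z ≤ 1` and `l = 0`: `two_abs_le` at `N + 1` gives `≥ 2 |k| ≥ 1`. If `nX z ≤ 1` and `nX x < 1 / A l`: `nX_fresh` (with `-k`) gives `≥ nX z + |k| / A l ≥ nX z + |k| nX x ≥ nX (z - k x) = nX u ≥ 1`. -/
theorem gen_supp (m i : ℕ) (hi : m + 1 < i) : gen P m i = 0 := by
  unfold gen
  split_ifs with h
  · have h1 : ratv (rel m).1 i = 0 := by
      rw [ratv_apply]
      have : (rel m).1 i = 0 := by
        by_contra hne
        have := rel_supp m i (Finsupp.mem_support_iff.2 hne)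
        omega
      rw [this]; simp
    rw [Finsupp.sub_apply, h1, Finsupp.single_eq_of_ne (by omega), sub_zero]
  · rfl

private theorem M1_ratv_zero (m i : ℕ) (hi : m < i) : ratv (rel m).1 i = 0 := by
  rw [ratv_apply]
  have : (rel m).1 i = 0 := by
    by_contra hne
    have := rel_supp m i (Finsupp.mem_support_iff.2 hne)
    omega
  rw [this]; simp

private theorem M1_comb_zero (N : ℕ) (k : ℕ → ℤ) (i : ℕ) (hi : N < i) :
    (Finsupp.single 0 1 + ∑ m ∈ range N, k m • gen P m : ℕ →₀ ℝ) i = 0 := by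
  rw [Finsupp.add_apply, Finsupp.single_eq_of_ne (by omega), zero_add, Finsupp.finsetSum_apply]
  refine Finset.sum_eq_zero fun m hm => ?_
  have hm' := Finset.mem_range.1 hm
  rw [Finsupp.smul_apply, gen_supp P m i (by omega), smul_zero]

private theorem M1_zsmul (k : ℤ) (v : ℕ →₀ ℝ) : k • v = (k : ℝ) • v := by
  ext i
  simp

theorem one_le_nX_comb (N : ℕ) (k : ℕ → ℤ) :
    1 ≤ nX P (Finsupp.single 0 1 + ∑ m ∈ range N, k m • gen P m) := by
  induction N with
  | zero =>
    have h := two_abs_le P (Finsupp.single 0 1) 0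
    rw [Finsupp.single_eq_same, abs_one] at h
    simp only [Finset.range_zero, Finset.sum_empty, add_zero]
    linarith
  | succ N ih =>
    rw [Finset.sum_range_succ, ← add_assoc]
    have hu0 := M1_comb_zero P N k
    obtain ⟨u, hu⟩ : ∃ u : ℕ →₀ ℝ, u = Finsupp.single 0 1 + ∑ m ∈ range N, k m • gen P m :=
      ⟨_, rfl⟩
    rw [← hu] at ih hu0 ⊢
    by_cases hG : Good P (rel N).1 (rel N).2.1
    swap
    · have : gen P N = 0 := by unfold gen; rw [if_neg hG]
      rw [this, smul_zero, add_zero]; exact ih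
    by_cases hk : k N = 0
    · rw [hk, zero_smul, add_zero]; exact ih
    have hgen : gen P N = ratv (rel N).1 - Finsupp.single (N + 1) ((1 / 2) ^ (rel N).2.1) := by
      unfold gen; rw [if_pos hG]
    obtain ⟨z, hz⟩ : ∃ z : ℕ →₀ ℝ, z = u + (k N : ℝ) • ratv (rel N).1 := ⟨_, rfl⟩
    have hz0 : z (N + 1) = 0 := by
      rw [hz, Finsupp.add_apply, hu0 (N + 1) (by omega), Finsupp.smul_apply,
        M1_ratv_zero N (N + 1) (by omega)]
      simp
    have hnew : u + k N • gen P N =
        z + Finsupp.single (N + 1) (((-(k N) : ℤ) : ℝ) * (1 / 2) ^ (rel N).2.1) := by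
      rw [hgen, hz, M1_zsmul, smul_sub, Finsupp.smul_single]
      have : Finsupp.single (N + 1) (((-(k N) : ℤ) : ℝ) * (1 / 2) ^ (rel N).2.1) =
          - Finsupp.single (N + 1) ((k N : ℝ) • ((1 : ℝ) / 2) ^ (rel N).2.1) := by
        rw [← Finsupp.single_neg]
        congr 1
        push_cast
        rw [smul_eq_mul]; ring
      rw [this]
      abel
    rw [hnew]
    by_cases h1 : 1 < nX P z
    · exact h1.le.trans (nX_fresh_mono P hz0 _)
    · have h1' : nX P z ≤ 1 := not_lt.1 h1
      have hkabs : (1 : ℝ) ≤ |(k N : ℝ)| := by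
        rw [← Int.cast_abs]
        exact_mod_cast Int.one_le_abs hk
      rcases hG with hl | hx
      · have h2 := two_abs_le P
          (z + Finsupp.single (N + 1) (((-(k N) : ℤ) : ℝ) * (1 / 2) ^ (rel N).2.1)) (N + 1)
        rw [Finsupp.add_apply, hz0, Finsupp.single_eq_same, hl, pow_zero, mul_one, zero_add] at h2
        push_cast at h2
        rw [abs_neg] at h2
        rw [hl, pow_zero, mul_one]
        push_cast
        linarith
      · have h2 := nX_fresh P (rel N).2.1 hz0 h1' (k := -(k N)) (neg_ne_zero.2 hk)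
        refine le_trans ?_ h2
        have h3 : u = z + (-(k N : ℝ)) • ratv (rel N).1 := by
          rw [hz, neg_smul]; abel
        have h4 : nX P u ≤ nX P z + |(k N : ℝ)| * nX P (ratv (rel N).1) := by
          calc nX P u = nX P (z + (-(k N : ℝ)) • ratv (rel N).1) := by rw [← h3]
            _ ≤ nX P z + nX P ((-(k N : ℝ)) • ratv (rel N).1) := nX_add_le P _ _
            _ = nX P z + |(k N : ℝ)| * nX P (ratv (rel N).1) := by rw [nX_smul, abs_neg]
        have h5 : |(k N : ℝ)| * nX P (ratv (rel N).1) ≤ |(k N : ℝ)| * (1 / P.A (rel N).2.1) :=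
          mul_le_mul_of_nonneg_left hx.le (abs_nonneg _)
        have h6 : |((-(k N) : ℤ) : ℝ)| / P.A (rel N).2.1 =
            |(k N : ℝ)| * (1 / P.A (rel N).2.1) := by
          push_cast
          rw [abs_neg]; ring
        rw [h6]
        linarith

private theorem M1_key (w : ℕ →₀ ℝ)
    (hw : w ∈ AddSubgroup.closure (Set.range (fun m => gen P m))) :
    ∃ (N : ℕ) (k : ℕ → ℤ), (∀ m, N ≤ m → k m = 0) ∧
        w = ∑ m ∈ range N, k m • gen P m := by
  induction hw using AddSubgroup.closure_induction with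
  | mem x hx =>
    obtain ⟨m, rfl⟩ := hx
    refine ⟨m + 1, fun i => if i = m then 1 else 0, fun i hi => if_neg (by omega), ?_⟩
    rw [Finset.sum_eq_single m]
    · simp
    · intro b _ hb
      simp [hb]
    · intro h
      exact absurd (Finset.mem_range.2 (Nat.lt_succ_self m)) h
  | zero => exact ⟨0, fun _ => 0, fun _ _ => rfl, by simp⟩
  | add x y _ _ hx hy =>
    obtain ⟨N, k, hk, hx⟩ := hx
    obtain ⟨N', k', hk', hy⟩ := hy
    refine ⟨max N N', fun m => k m + k' m, fun m hm => ?_, ?_⟩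
    · simp only
      rw [hk m (le_trans (le_max_left _ _) hm), hk' m (le_trans (le_max_right _ _) hm), add_zero]
    · have e1 : ∑ m ∈ range N, k m • gen P m = ∑ m ∈ range (max N N'), k m • gen P m := by
        refine Finset.sum_subset (Finset.range_subset_range.2 (le_max_left _ _)) ?_
        intro m _ hm
        rw [hk m (by simpa using hm), zero_smul]
      have e2 : ∑ m ∈ range N', k' m • gen P m = ∑ m ∈ range (max N N'), k' m • gen P m := by
        refine Finset.sum_subset (Finset.range_subset_range.2 (le_max_right _ _)) ?_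
        intro m _ hm
        rw [hk' m (by simpa using hm), zero_smul]
      rw [hx, hy, e1, e2, ← Finset.sum_add_distrib]
      refine Finset.sum_congr rfl fun m _ => ?_
      exact (add_smul _ _ _).symm
  | neg x _ hx =>
    obtain ⟨N, k, hk, hx⟩ := hx
    refine ⟨N, fun m => - k m, fun m hm => ?_, ?_⟩
    · simp only
      rw [hk m hm, neg_zero]
    · rw [hx, ← Finset.sum_neg_distrib]
      refine Finset.sum_congr rfl fun m _ => ?_
      exact (neg_smul _ _).symm

/-- elements of `Gam P` are combinations of the generators (`AddSubgroup.closure_induction`). -/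
theorem mem_Gam {v : ℕ →₀ ℝ} (hv : (v : VX P) ∈ Gam P) :
    ∃ (N : ℕ) (k : ℕ → ℤ), v = ∑ m ∈ range N, k m • gen P m := by
  obtain ⟨N, k, _, h⟩ := M1_key P v hv
  exact ⟨N, k, h⟩

private theorem M1_aux (m e s : ℕ →₀ ℝ) (h : m - e = s) : m = e + s := by
  rw [← h]; abel

/-- the quotient norm is the infimum over `Gam P`. -/
theorem one_le_norm_cls : 1 ≤ ‖cls P (Finsupp.single 0 1)‖ := by
  obtain ⟨e, he⟩ : ∃ e : VX P, e = (Finsupp.single 0 1 : ℕ →₀ ℝ) := ⟨_, rfl⟩
  have hc : ‖cls P (Finsupp.single 0 1)‖ = ‖(QuotientAddGroup.mk' (Gam P) e : VX P ⧸ Gam P)‖ := by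
    rw [he]
    show ‖((QuotientAddGroup.mk' (Gam P) _ : VX P ⧸ Gam P) : MM P)‖ = _
    rw [UniformSpace.Completion.norm_coe]
  rw [hc]
  refine le_of_forall_pos_le_add fun ε hε => ?_
  obtain ⟨m, hm1, hm2⟩ := QuotientAddGroup.exists_norm_mk_lt
    (QuotientAddGroup.mk' (Gam P) e) hε
  have hmem : m - e ∈ Gam P := by
    rw [← QuotientAddGroup.eq_zero_iff]
    have h3 : ((m - e : VX P) : VX P ⧸ Gam P) = (m : VX P ⧸ Gam P) - (e : VX P ⧸ Gam P) := rfl
    rw [h3]
    exact sub_eq_zero.2 hm1
  obtain ⟨N, k, hk⟩ := mem_Gam P hmem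
  have hk2 : (m : ℕ →₀ ℝ) = Finsupp.single 0 1 + ∑ m ∈ range N, k m • gen P m := by
    refine M1_aux m _ _ ?_
    rw [← hk, he]
    rfl
  have h1 : 1 ≤ nX P m := (one_le_nX_comb P N k).trans_eq (congrArg (nX P) hk2.symm)
  rw [norm_VX] at hm2
  exact h1.trans hm2.le

end Pool.Agent.Lib.MP_a1a06b_an.LZ
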