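import Pool.Agent.Lib.MP_a1a06b_an.LZ.M1

set_option autoImplicit false

open Finset
open scoped Classical

noncomputable section

namespace Pool.Agent.Lib.MP_a1a06b_an.LZ

variable (P : Par)

private theorem M2_ratv_add (x y : ℕ →₀ ℚ) : ratv (x + y) = ratv x + ratv y := by
  ext i
  simp [ratv_apply]

private theorem M2_ratv_zero : ratv 0 = 0 := by
  ext i
  simp [ratv_apply]

private theorem M2_ratv_single (a : ℕ) (q : ℚ) :
    ratv (Finsupp.single a q) = Finsupp.single a (q : ℝ) := by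
  simp [ratv]

/-- ROW M2. Rational vectors approximate: choose rationals `x i` near `v i` for `i` in the support of `v`; `nX P (v - ratv x) ≤ 3 ∑ |v i - x i|` (`nX_single_le`, `nX_add_le`). -/
theorem exists_rat_near (v : ℕ →₀ ℝ) {η : ℝ} (hη : 0 < η) :
    ∃ x : ℕ →₀ ℚ, nX P (v - ratv x) < η := by
  induction v using Finsupp.induction_linear generalizing η with
  | zero =>
    refine ⟨0, ?_⟩
    rw [M2_ratv_zero, sub_zero, nX_zero]
    exact hη
  | add f g hf hg =>
    obtain ⟨x, hx⟩ := hf (half_pos hη)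
    obtain ⟨y, hy⟩ := hg (half_pos hη)
    refine ⟨x + y, ?_⟩
    rw [M2_ratv_add, add_sub_add_comm]
    calc nX P (f - ratv x + (g - ratv y)) ≤ nX P (f - ratv x) + nX P (g - ratv y) :=
          nX_add_le P _ _
      _ < η / 2 + η / 2 := add_lt_add hx hy
      _ = η := add_halves η
  | single a b =>
    obtain ⟨q, hq1, hq2⟩ := exists_rat_btwn (show b - η / 4 < b by linarith)
    refine ⟨Finsupp.single a q, ?_⟩
    rw [M2_ratv_single, ← Finsupp.single_sub]
    calc nX P (Finsupp.single a (b - (q : ℝ))) ≤ 3 * |b - (q : ℝ)| := nX_single_le P _ _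
      _ < η := by
        rw [abs_of_pos (by linarith)]
        linarith

private theorem M2_lift (q : VX P ⧸ Gam P) {r : ℝ} (hq : ‖q‖ < r) :
    ∃ v : ℕ →₀ ℝ, nX P v < r ∧ cls P v = (q : MM P) := by
  obtain ⟨v, hv1, hv2⟩ := QuotientAddGroup.norm_lt_iff.mp hq
  refine ⟨v, hv2, ?_⟩
  rw [← hv1]
  rfl

private theorem M2_sub (v x : ℕ →₀ ℝ) : nX P x ≤ nX P v + nX P (v - x) := by
  have h3 : x = v + -(v - x) := by abel
  calc nX P x = nX P (v + -(v - x)) := by rw [← h3]
    _ ≤ nX P v + nX P (-(v - x)) := nX_add_le P _ _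
    _ = nX P v + nX P (v - x) := by rw [nX_neg]

/-- `h` is near the class of some `v` (`UniformSpace.Completion.denseRange_coe`, `Quotient` surjective), with norm `< r`; so `nX P (v + g) < r` for a `g ∈ Gam P` (quotient norm); take `x` near `v + g`. -/
theorem exists_rat (h : MM P) {r η : ℝ} (hr : ‖h‖ < r) (hη : 0 < η) :
    ∃ x : ℕ →₀ ℚ, nX P (ratv x) < r ∧ ‖h - cls P (ratv x)‖ < η := by
  have hε : 0 < min (η / 2) ((r - ‖h‖) / 2) := lt_min (by linarith) (by linarith)
  obtain ⟨q, hq⟩ := (Metric.denseRange_iff.mp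
    (UniformSpace.Completion.denseRange_coe (α := VX P ⧸ Gam P))) h _ hε
  rw [dist_eq_norm] at hq
  have hq1 : ‖h - (q : MM P)‖ < η / 2 := lt_of_lt_of_le hq (min_le_left _ _)
  have hq2 : ‖h - (q : MM P)‖ < (r - ‖h‖) / 2 := lt_of_lt_of_le hq (min_le_right _ _)
  have hqn : ‖q‖ < r := by
    have h1 : ‖(q : MM P)‖ ≤ ‖h‖ + ‖h - (q : MM P)‖ := by
      calc ‖(q : MM P)‖ = ‖h - (h - (q : MM P))‖ := by rw [sub_sub_cancel]
        _ ≤ ‖h‖ + ‖h - (q : MM P)‖ := norm_sub_le _ _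
    rw [UniformSpace.Completion.norm_coe] at h1
    linarith
  obtain ⟨v, hv3, hv4⟩ := M2_lift P q hqn
  obtain ⟨x, hx⟩ := exists_rat_near P v
    (lt_min (show 0 < η / 2 by linarith) (show 0 < r - nX P v by linarith))
  have hx1 := lt_of_lt_of_le hx (min_le_left _ _)
  have hx2 := lt_of_lt_of_le hx (min_le_right _ _)
  refine ⟨x, ?_, ?_⟩
  · have h4 := M2_sub P v (ratv x)
    linarith
  · rw [← hv4] at hq1
    have h6 : h - cls P (ratv x) = (h - cls P v) + cls P (v - ratv x) := by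
      rw [map_sub, sub_add_sub_cancel]
    rw [h6]
    calc ‖(h - cls P v) + cls P (v - ratv x)‖
        ≤ ‖h - cls P v‖ + ‖cls P (v - ratv x)‖ := norm_add_le _ _
      _ ≤ ‖h - cls P v‖ + nX P (v - ratv x) := by
        gcongr
        exact norm_cls_le P _
      _ < η := by linarith

/-- `‖cls (ratv x)‖ = ‖cls (single _ 1)‖ ≤ 3` (`cls_rel` with `l = 0`), and these are dense (`exists_rat`). -/
theorem norm_le_three (h : MM P) : ‖h‖ ≤ 3 := by
  refine le_of_forall_pos_le_add fun η hη => ?_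
  obtain ⟨x, _, hx⟩ := exists_rat P h (lt_add_one ‖h‖) hη
  have h1 : ‖cls P (ratv x)‖ ≤ 3 := by
    rw [cls_rel P (l := 0) (Or.inl rfl) 0]
    calc ‖cls P (Finsupp.single (coord x 0 0) ((1 / 2) ^ 0))‖
        ≤ nX P (Finsupp.single (coord x 0 0) ((1 / 2) ^ 0)) := norm_cls_le P _
      _ ≤ 3 * |((1 / 2) ^ 0 : ℝ)| := nX_single_le P _ _
      _ = 3 := by norm_num
  calc ‖h‖ = ‖cls P (ratv x) + (h - cls P (ratv x))‖ := by rw [add_sub_cancel]
    _ ≤ ‖cls P (ratv x)‖ + ‖h - cls P (ratv x)‖ := norm_add_le _ _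
    _ ≤ 3 + η := by linarith

theorem separable_MM : TopologicalSpace.SeparableSpace (MM P) := by
  refine ⟨⟨Set.range (fun x : ℕ →₀ ℚ => cls P (ratv x)), Set.countable_range _, ?_⟩⟩
  refine Metric.denseRange_iff.mpr fun h η hη => ?_
  obtain ⟨x, _, hx⟩ := exists_rat P h (lt_add_one ‖h‖) hη
  exact ⟨x, by rw [dist_eq_norm]; exact hx⟩

theorem nontrivial_MM : Nontrivial (MM P) := by
  refine nontrivial_of_ne (cls P (Finsupp.single 0 1)) 0 fun h => ?_
  have h1 := one_le_norm_cls P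
  rw [h, norm_zero] at h1
  linarith

end Pool.Agent.Lib.MP_a1a06b_an.LZ
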