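import Mathlib

set_option autoImplicit false

open Finset Filter Topology
open scoped Classical ENNReal

noncomputable section

namespace Pool.Agent.Lib.MP_a1a06b_an.LZ

/-- The projection onto the coordinates in `s`. -/
private def NCa_D (p : ℝ≥0∞) [Fact (1 ≤ p)] (s : Finset ℕ) :
    lp (fun _ : ℕ => ℝ) p →L[ℝ] lp (fun _ : ℕ => ℝ) p :=
  ∑ i ∈ s, (lp.singleContinuousLinearMap ℝ (fun _ : ℕ => ℝ) p i).comp
    (lp.evalCLM ℝ (fun _ : ℕ => ℝ) p i)

private theorem NCa_D_apply (p : ℝ≥0∞) [Fact (1 ≤ p)] (s : Finset ℕ)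
    (y : lp (fun _ : ℕ => ℝ) p) :
    NCa_D p s y = ∑ i ∈ s, lp.single p i (y i) := by
  unfold NCa_D
  rw [_root_.sum_apply]
  rfl

private theorem NCa_compact {E : Type*} [NormedAddCommGroup E] [NormedSpace ℝ E] {p : ℝ≥0∞}
    [Fact (1 ≤ p)] (T : E →L[ℝ] lp (fun _ : ℕ => ℝ) p) (s : Finset ℕ) :
    IsCompactOperator ((NCa_D p s).comp T) := by
  have h1 : (NCa_D p s).comp T = ∑ i ∈ s, (lp.singleContinuousLinearMap ℝ (fun _ : ℕ => ℝ) p i).comp
      ((lp.evalCLM ℝ (fun _ : ℕ => ℝ) p i).comp T) := by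
    ext1 x
    rw [ContinuousLinearMap.comp_apply, NCa_D_apply, _root_.sum_apply]
    rfl
  rw [h1]
  have h2 : (∑ i ∈ s, (lp.singleContinuousLinearMap ℝ (fun _ : ℕ => ℝ) p i).comp
      ((lp.evalCLM ℝ (fun _ : ℕ => ℝ) p i).comp T)) ∈
      compactOperator (RingHom.id ℝ) E (lp (fun _ : ℕ => ℝ) p) := by
    refine Submodule.sum_mem _ fun i _ => ?_
    have h3 : IsCompactOperator ((lp.evalCLM ℝ (fun _ : ℕ => ℝ) p i).comp T) :=
      isCompactOperator_of_locallyCompactSpace_dom _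
    exact h3.clm_comp (lp.singleContinuousLinearMap ℝ (fun _ : ℕ => ℝ) p i)
  exact h2

/-- ROW NCa. Blocks. Let `R N y` be `y` with the coordinates `< N` replaced by `0` (norm `≤ ‖y‖`), `D N M = R N - R M`. If for every `ε > 0` there is `N` with `‖R N (T x)‖ ≤ ε ‖x‖` for all `x`, then `T` is the norm limit of the finite rank operators `T - R N T`, hence
compact (`isCompactOperator_of_tendsto`). So there is `c > 0` such that for every `N` there is `x`, `‖x‖ ≤ 1`, `2 c < ‖R N (T x)‖`, and then (`p < ∞`: tails of an element of `ℓ_p` tend to `0`) `M > N` with `c < ‖D N M (T x)‖`. Choose recursively `N_0 < N_1 < ...` with this property for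
`(N_n, N_(n+1))` and by Hahn-Banach (`exists_dual_vector`) functionals `φ n` of norm `≤ 1` with `f n = φ n ∘ D N_n N_(n+1) ∘ T`, `c ≤ ‖f n‖`. Then `∑_F |f n x|^p ≤ ∑_F ‖D .. (T x)‖^p ≤ ‖T x‖^p`. -/
theorem exists_blocks {E : Type*} [NormedAddCommGroup E] [NormedSpace ℝ E] {p : ℝ≥0∞}
    [Fact (1 ≤ p)] (hp : p ≠ ∞) (T : E →L[ℝ] lp (fun _ : ℕ => ℝ) p) (hT : ¬ IsCompactOperator T) :
    ∃ (f : ℕ → E →L[ℝ] ℝ) (c : ℝ), 0 < c ∧ (∀ n, c ≤ ‖f n‖) ∧
      ∀ (x : E) (F : Finset ℕ), ∑ n ∈ F, |f n x| ^ p.toReal ≤ (‖T‖ * ‖x‖) ^ p.toReal := by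
  have hp0 : 0 < p.toReal :=
    ENNReal.toReal_pos (zero_lt_one.trans_le (Fact.out : 1 ≤ p)).ne' hp
  -- the tails are not uniformly small
  obtain ⟨c, hc, hcN⟩ : ∃ c : ℝ, 0 < c ∧ ∀ N : ℕ, ∃ x : E, ‖x‖ ≤ 1 ∧
      c < ‖T x - NCa_D p (range N) (T x)‖ := by
    by_contra hcon
    push Not at hcon
    apply hT
    choose N hN using fun k : ℕ => hcon (1 / ((k : ℝ) + 1)) (by positivity)
    have ht : Tendsto (fun k => (NCa_D p (range (N k))).comp T) atTop (𝓝 T) := by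
      rw [tendsto_iff_norm_sub_tendsto_zero]
      refine squeeze_zero (fun k => norm_nonneg _) (fun k => ?_)
        tendsto_one_div_add_atTop_nhds_zero_nat
      refine ContinuousLinearMap.opNorm_le_of_unit_norm (by positivity) fun x hx => ?_
      rw [_root_.sub_apply, ContinuousLinearMap.comp_apply, norm_sub_rev]
      exact hN k x hx.le
    exact isCompactOperator_of_tendsto ht (Eventually.of_forall fun k => NCa_compact T _)
  -- blocks
  have hblock : ∀ N : ℕ, ∃ M : ℕ, N < M ∧ ∃ x : E, ‖x‖ ≤ 1 ∧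
      c < ‖NCa_D p (Ico N M) (T x)‖ := by
    intro N
    obtain ⟨x, hx, hxc⟩ := hcN N
    have h1 : Tendsto (fun M : ℕ => NCa_D p (range M) (T x)) atTop (𝓝 (T x)) := by
      have h2 := (lp.hasSum_single hp (T x)).tendsto_sum_nat
      refine h2.congr fun M => ?_
      rw [NCa_D_apply]
    have h3 : Tendsto (fun M : ℕ => ‖NCa_D p (range M) (T x) - NCa_D p (range N) (T x)‖) atTop
        (𝓝 ‖T x - NCa_D p (range N) (T x)‖) := (h1.sub_const _).norm
    obtain ⟨M, hM1, hM2⟩ := ((h3.eventually_const_lt hxc).and (eventually_gt_atTop N)).exists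
    refine ⟨M, hM2, x, hx, ?_⟩
    have h4 : NCa_D p (Ico N M) (T x) = NCa_D p (range M) (T x) - NCa_D p (range N) (T x) := by
      rw [NCa_D_apply, NCa_D_apply, NCa_D_apply]
      exact Finset.sum_Ico_eq_sub _ hM2.le
    rw [h4]
    exact hM1
  choose nxt hnxt X hX1 hX2 using hblock
  let Ns : ℕ → ℕ := fun n => nxt^[n] 0
  have hNs : ∀ n, Ns (n + 1) = nxt (Ns n) := fun n => Function.iterate_succ_apply' nxt n 0
  have hmono : StrictMono Ns := strictMono_nat_of_lt_succ fun n => by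
    rw [hNs]
    exact hnxt _
  let D : ℕ → (lp (fun _ : ℕ => ℝ) p →L[ℝ] lp (fun _ : ℕ => ℝ) p) := fun n =>
    NCa_D p (Ico (Ns n) (Ns (n + 1)))
  have hD : ∀ n, c < ‖D n (T (X (Ns n)))‖ := fun n => by
    show c < ‖NCa_D p (Ico (Ns n) (Ns (n + 1))) (T (X (Ns n)))‖
    rw [hNs]
    exact hX2 _
  choose φ hφ1 hφ2 using fun n => exists_dual_vector'' ℝ (D n (T (X (Ns n))))
  refine ⟨fun n => (φ n).comp ((D n).comp T), c, hc, fun n => ?_, fun x F => ?_⟩
  · have h1 : c < ‖((φ n).comp ((D n).comp T)) (X (Ns n))‖ := by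
      rw [ContinuousLinearMap.comp_apply, ContinuousLinearMap.comp_apply, hφ2]
      simpa using hD n
    have h2 := ContinuousLinearMap.le_opNorm ((φ n).comp ((D n).comp T)) (X (Ns n))
    have h3 : ‖(φ n).comp ((D n).comp T)‖ * ‖X (Ns n)‖ ≤ ‖(φ n).comp ((D n).comp T)‖ :=
      mul_le_of_le_one_right (norm_nonneg _) (hX1 _)
    exact (h1.trans_le (h2.trans h3)).le
  · have h1 : ∀ n, |((φ n).comp ((D n).comp T)) x| ^ p.toReal ≤
        ∑ i ∈ Ico (Ns n) (Ns (n + 1)), ‖T x i‖ ^ p.toReal := by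
      intro n
      have h2 : |((φ n).comp ((D n).comp T)) x| ≤ ‖D n (T x)‖ := by
        rw [ContinuousLinearMap.comp_apply, ContinuousLinearMap.comp_apply]
        calc |φ n (D n (T x))| ≤ ‖φ n‖ * ‖D n (T x)‖ := (φ n).le_opNorm _
          _ ≤ 1 * ‖D n (T x)‖ := mul_le_mul_of_nonneg_right (hφ1 n) (norm_nonneg _)
          _ = ‖D n (T x)‖ := one_mul _
      have h3 : ‖D n (T x)‖ ^ p.toReal = ∑ i ∈ Ico (Ns n) (Ns (n + 1)), ‖T x i‖ ^ p.toReal := by
        show ‖NCa_D p (Ico (Ns n) (Ns (n + 1))) (T x)‖ ^ p.toReal = _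
        rw [NCa_D_apply]
        exact lp.norm_sum_single hp0 (fun i => T x i) _
      rw [← h3]
      exact Real.rpow_le_rpow (abs_nonneg _) h2 hp0.le
    have hdisj : Set.PairwiseDisjoint (F : Set ℕ) fun n => Ico (Ns n) (Ns (n + 1)) := by
      intro a _ b _ hab
      refine Finset.disjoint_left.mpr fun i hia hib => ?_
      rw [Finset.mem_Ico] at hia hib
      rcases lt_or_gt_of_ne hab with h | h
      · have := hmono.monotone (Nat.succ_le_of_lt h)
        have h4 : Ns (a + 1) ≤ Ns b := this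
        omega
      · have := hmono.monotone (Nat.succ_le_of_lt h)
        have h4 : Ns (b + 1) ≤ Ns a := this
        omega
    calc ∑ n ∈ F, |((φ n).comp ((D n).comp T)) x| ^ p.toReal
        ≤ ∑ n ∈ F, ∑ i ∈ Ico (Ns n) (Ns (n + 1)), ‖T x i‖ ^ p.toReal :=
          Finset.sum_le_sum fun n _ => h1 n
      _ = ∑ i ∈ F.biUnion (fun n => Ico (Ns n) (Ns (n + 1))), ‖T x i‖ ^ p.toReal :=
          (Finset.sum_biUnion hdisj).symm
      _ ≤ ‖T x‖ ^ p.toReal := lp.sum_rpow_le_norm_rpow hp0 (T x) _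
      _ ≤ (‖T‖ * ‖x‖) ^ p.toReal :=
          Real.rpow_le_rpow (norm_nonneg _) (T.le_opNorm x) hp0.le

end Pool.Agent.Lib.MP_a1a06b_an.LZ
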