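import Pool.Agent.Lib.MP_a1a06b_an.LZ.SEc

set_option autoImplicit false

open Finset Filter Topology
open scoped Classical ENNReal

noncomputable section

namespace Pool.Agent.Lib.MP_a1a06b_an.LZ

/-- ROW NCb. `|(∑_F σ n f n) x| ≤ ∑_F |f n x| ≤ |F|^(1 - 1/p) (∑_F |f n x|^p)^(1/p) ≤ |F|^(1-1/p) ‖T‖ ‖x‖` (Hoelder / `Real.inner_le_Lp_mul_Lq` or `Finset` power mean; for `p = 1` no factor), and `|F|^(-1/p) ‖T‖ ≤ ε` for large `|F|`. -/
theorem uces_of_blocks {E : Type*} [NormedAddCommGroup E] [NormedSpace ℝ E] (q : ℝ) (hq : 1 ≤ q)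
    (K : ℝ) (f : ℕ → E →L[ℝ] ℝ)
    (h : ∀ (x : E) (F : Finset ℕ), ∑ n ∈ F, |f n x| ^ q ≤ (K * ‖x‖) ^ q) (hK : 0 ≤ K) :
    UCes f := by
  intro ε hε
  have hq0 : 0 < q := by linarith
  obtain ⟨N, hN⟩ := exists_nat_ge ((K / ε) ^ q)
  refine ⟨max N 1, fun F hF σ hσ => ?_⟩
  have hF1 : 1 ≤ F.card := le_trans (le_max_right _ _) hF
  have hFN : N ≤ F.card := le_trans (le_max_left _ _) hF
  have hc0 : (0 : ℝ) < F.card := by exact_mod_cast (by omega : 0 < F.card)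
  refine ContinuousLinearMap.opNorm_le_bound _ (by positivity) fun x => ?_
  have e1 : (∑ n ∈ F, σ n • f n) x = ∑ n ∈ F, σ n * f n x := by
    simp
  rw [e1, Real.norm_eq_abs]
  have e2 : |∑ n ∈ F, σ n * f n x| ≤ ∑ n ∈ F, |f n x| := by
    refine le_trans (Finset.abs_sum_le_sum_abs _ _) (Finset.sum_le_sum fun n _ => ?_)
    rw [abs_mul]
    calc |σ n| * |f n x| ≤ 1 * |f n x| := mul_le_mul_of_nonneg_right (hσ n) (abs_nonneg _)
      _ = |f n x| := one_mul _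
  refine e2.trans ?_
  have hs0 : 0 ≤ ∑ n ∈ F, |f n x| := Finset.sum_nonneg fun n _ => abs_nonneg _
  have hb0 : 0 ≤ ε * F.card * ‖x‖ := by positivity
  rw [← Real.rpow_le_rpow_iff hs0 hb0 hq0]
  have e3 := Real.rpow_sum_le_const_mul_sum_rpow (s := F) (f := fun n => f n x) hq
  refine e3.trans ?_
  have e4 : ((F.card : ℝ)) ^ (q - 1) * ∑ n ∈ F, |f n x| ^ q ≤
      (F.card : ℝ) ^ (q - 1) * (K * ‖x‖) ^ q :=
    mul_le_mul_of_nonneg_left (h x F) (Real.rpow_nonneg hc0.le _)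
  refine e4.trans ?_
  have hKe : K ^ q ≤ F.card * ε ^ q := by
    have h1 : (K / ε) ^ q ≤ F.card := hN.trans (by exact_mod_cast hFN)
    rw [Real.div_rpow hK hε.le, div_le_iff₀ (Real.rpow_pos_of_pos hε _)] at h1
    exact h1
  have e5 : (F.card : ℝ) ^ q = (F.card : ℝ) ^ (q - 1) * F.card := by
    rw [Real.rpow_sub_one hc0.ne', div_mul_cancel₀ _ hc0.ne']
  rw [Real.mul_rpow hK (norm_nonneg _), Real.mul_rpow (by positivity) (norm_nonneg _),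
    Real.mul_rpow hε.le hc0.le, e5]
  have hx0 : 0 ≤ ‖x‖ ^ q := Real.rpow_nonneg (norm_nonneg _) _
  have hc1 : 0 ≤ (F.card : ℝ) ^ (q - 1) := Real.rpow_nonneg hc0.le _
  calc (F.card : ℝ) ^ (q - 1) * (K ^ q * ‖x‖ ^ q)
      ≤ (F.card : ℝ) ^ (q - 1) * (F.card * ε ^ q * ‖x‖ ^ q) :=
        mul_le_mul_of_nonneg_left (mul_le_mul_of_nonneg_right hKe hx0) hc1
    _ = ε ^ q * ((F.card : ℝ) ^ (q - 1) * F.card) * ‖x‖ ^ q := by ring

end Pool.Agent.Lib.MP_a1a06b_an.LZ
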