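import Pool.Agent.Lib.MP_a1a06b_an.LZ.X2

set_option autoImplicit false

open Finset
open scoped Classical

noncomputable section

namespace Pool.Agent.Lib.MP_a1a06b_an.LZ

variable (P : Par)

/-- `y` restricted to `F` has the profile of the family `f j x`, `‖x‖ ≤ 1`. -/
def Prof (y : ℕ → ℝ) : Prop :=
  ∀ k : ℕ, ∀ G : Finset ℕ, G.card ≤ P.A k → ∑ j ∈ G, |y j| ≤ (1 / 64) ^ k * P.A k

/-- ROW PW. Geometric sums over finite sets of levels: `≤ ∑' = 2`. -/
theorem sum_half_le (Λ : Finset ℕ) : ∑ l ∈ Λ, (1 / 2 : ℝ) ^ l ≤ 2 := by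
  have h := summable_geometric_two.sum_le_tsum Λ (fun l _ => by positivity)
  rwa [tsum_geometric_two] at h

/-- a set on which `(1/64)^l < |y|` has fewer than `A l` elements -/
private theorem PWa_card_lt {y : ℕ → ℝ} (hy : Prof P y) (l : ℕ) (G : Finset ℕ)
    (hG : ∀ j ∈ G, (1 / 64 : ℝ) ^ l < |y j|) : G.card < P.A l := by
  by_contra hlt
  rw [not_lt] at hlt
  obtain ⟨G', hG', hc⟩ := Finset.exists_subset_card_eq hlt
  have h1 := hy l G' hc.le
  have hpos : 0 < G'.card := by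
    rw [hc]
    exact lt_of_lt_of_le (by positivity) (P.ge l)
  have h2 : ∑ _j ∈ G', (1 / 64 : ℝ) ^ l < ∑ j ∈ G', |y j| :=
    Finset.sum_lt_sum_of_nonempty (Finset.card_pos.mp hpos) fun j hj => hG j (hG' hj)
  rw [Finset.sum_const, nsmul_eq_mul, hc] at h2
  linarith [mul_comm (P.A l : ℝ) ((1 / 64 : ℝ) ^ l)]

/-- Counting. The sum over `j ∈ F` with `(1/64) ^ lv j < |y j|` of `3 * 2 ^ l * |y j| / (16 ^ l * A l)`, `l = lv j`. Group by `l`: for given `l` at most `A l` indices `j` with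
`(1/64)^l < |y j|` (otherwise a set `G` with `A l` of them contradicts `hy l G`), `|y j| ≤ 1`; so the level `l` contributes `≤ 3 * 8^{-l}`, and `l > L` (`hL`), so `≤ 3 (1/2)^L (1/4)^l`;
sum over `l ≥ 1` `≤ 3 (1/2)^L` . -/
theorem counting (y : ℕ → ℝ) (hy : Prof P y) (F : Finset ℕ) (lv : ℕ → ℕ) (L : ℕ)
    (hL : ∀ j ∈ F, |y j| ≤ (1 / 64) ^ L) :
    ∑ j ∈ F.filter (fun j => (1 / 64 : ℝ) ^ lv j < |y j|),
      3 * 2 ^ lv j * |y j| * (1 / (16 ^ lv j * (P.A (lv j) : ℝ))) ≤ 3 * (1 / 2) ^ L := by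
  set F' := F.filter (fun j => (1 / 64 : ℝ) ^ lv j < |y j|) with hF'
  have hmem : ∀ j ∈ F', j ∈ F ∧ (1 / 64 : ℝ) ^ lv j < |y j| := fun j hj =>
    Finset.mem_filter.mp hj
  rw [← Finset.sum_fiberwise_of_maps_to (s := F') (t := F'.image lv) (g := lv)
    (fun j hj => Finset.mem_image_of_mem lv hj)]
  have hlev : ∀ l ∈ F'.image lv, L < l := by
    intro l hl
    obtain ⟨j, hj, rfl⟩ := Finset.mem_image.mp hl
    obtain ⟨hjF, hj2⟩ := hmem j hj
    have h3 : (1 / 64 : ℝ) ^ lv j < (1 / 64) ^ L := lt_of_lt_of_le hj2 (hL j hjF)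
    exact (pow_lt_pow_iff_right_of_lt_one₀ (by norm_num) (by norm_num)).mp h3
  have hterm : ∀ l ∈ F'.image lv,
      ∑ j ∈ F'.filter (fun j => lv j = l),
        3 * 2 ^ lv j * |y j| * (1 / (16 ^ lv j * (P.A (lv j) : ℝ)))
      ≤ 3 * (1 / 2) ^ L * (1 / 2 * (1 / 2) ^ l) := by
    intro l hl
    have hLl := hlev l hl
    have hA : (0 : ℝ) < P.A l := by
      have h8 : 0 < P.A l := lt_of_lt_of_le (by positivity) (P.ge l)
      exact_mod_cast h8
    set G := F'.filter (fun j => lv j = l) with hGdef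
    have hG : ∀ j ∈ G, j ∈ F' ∧ lv j = l := fun j hj => Finset.mem_filter.mp hj
    have hcard : G.card ≤ P.A l := (PWa_card_lt P hy l G fun j hj => by
      obtain ⟨h1, h2⟩ := hG j hj
      have := (hmem j h1).2
      rwa [h2] at this).le
    have hsum := hy l G hcard
    have e1 : ∑ j ∈ G, 3 * 2 ^ lv j * |y j| * (1 / (16 ^ lv j * (P.A (lv j) : ℝ)))
        = 3 * 2 ^ l * (1 / (16 ^ l * (P.A l : ℝ))) * ∑ j ∈ G, |y j| := by
      rw [Finset.mul_sum]
      refine Finset.sum_congr rfl fun j hj => ?_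
      rw [(hG j hj).2]
      ring
    rw [e1]
    have h5 : ∑ j ∈ G, |y j| ≤ P.A l := by
      refine hsum.trans ?_
      have h6 : (1 / 64 : ℝ) ^ l ≤ 1 := pow_le_one₀ (by norm_num) (by norm_num)
      calc (1 / 64 : ℝ) ^ l * P.A l ≤ 1 * P.A l := mul_le_mul_of_nonneg_right h6 hA.le
        _ = P.A l := one_mul _
    have h7 : (2 : ℝ) ^ l * (1 / 16 ^ l) = (1 / 2) ^ l * (1 / 4) ^ l := by
      rw [← mul_pow, show (1 / 16 ^ l : ℝ) = (1 / 16) ^ l by rw [div_pow, one_pow], ← mul_pow]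
      norm_num
    have h8 : ((1 : ℝ) / 2) ^ l ≤ (1 / 2) ^ L :=
      pow_le_pow_of_le_one (by norm_num) (by norm_num) hLl.le
    have h9 : ((1 : ℝ) / 4) ^ l ≤ 1 / 2 * (1 / 2) ^ l := by
      have e2 : ((1 : ℝ) / 4) ^ l = (1 / 2) ^ l * (1 / 2) ^ l := by
        rw [← mul_pow]; norm_num
      rw [e2]
      refine mul_le_mul_of_nonneg_right ?_ (by positivity)
      calc ((1 : ℝ) / 2) ^ l ≤ (1 / 2) ^ 1 :=
            pow_le_pow_of_le_one (by norm_num) (by norm_num) (by omega)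
        _ = 1 / 2 := pow_one _
    calc 3 * 2 ^ l * (1 / (16 ^ l * (P.A l : ℝ))) * ∑ j ∈ G, |y j|
        ≤ 3 * 2 ^ l * (1 / (16 ^ l * (P.A l : ℝ))) * P.A l :=
          mul_le_mul_of_nonneg_left h5 (by positivity)
      _ = 3 * (2 ^ l * (1 / 16 ^ l)) := by
          field_simp
      _ = 3 * ((1 / 2) ^ l * (1 / 4) ^ l) := by rw [h7]
      _ ≤ 3 * ((1 / 2) ^ L * (1 / 2 * (1 / 2) ^ l)) :=
          mul_le_mul_of_nonneg_left (mul_le_mul h8 h9 (by positivity) (by positivity))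
            (by norm_num)
      _ = 3 * (1 / 2) ^ L * (1 / 2 * (1 / 2) ^ l) := by ring
  refine (Finset.sum_le_sum hterm).trans ?_
  rw [← Finset.mul_sum, ← Finset.mul_sum]
  have h10 := sum_half_le (F'.image lv)
  have h11 : (0 : ℝ) ≤ 3 * (1 / 2) ^ L := by positivity
  nlinarith

/-- for a given profile only finitely many coordinates are `> (1/64)^L` (fewer than `A L`). -/
theorem Prof.finite {y : ℕ → ℝ} (hy : Prof P y) (L : ℕ) :
    {j : ℕ | (1 / 64 : ℝ) ^ L < |y j|}.Finite := by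
  by_contra hinf
  obtain ⟨G, hG, hc⟩ := Set.Infinite.exists_subset_card_eq hinf (P.A L)
  exact absurd (PWa_card_lt P hy L G fun j hj => hG hj) (by rw [hc]; exact lt_irrefl _)

end Pool.Agent.Lib.MP_a1a06b_an.LZ
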