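import Pool.Agent.Lib.MP_a1a06b_an.LZ.PWa

set_option autoImplicit false

open Finset
open scoped Classical

noncomputable section

namespace Pool.Agent.Lib.MP_a1a06b_an.LZ

variable (P : Par)

private theorem PWb_sum_le {κ : Type*} (s : Finset κ) (f : κ → (ℕ →₀ ℝ)) :
    nX P (∑ i ∈ s, f i) ≤ ∑ i ∈ s, nX P (f i) := by
  induction s using Finset.induction_on with
  | empty => simp [nX_zero]
  | insert a s ha ih =>
    rw [Finset.sum_insert ha, Finset.sum_insert ha]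
    exact (nX_add_le P _ _).trans (by linarith)

private theorem PWb_pow (l L : ℕ) :
    (2 : ℝ) ^ l * (3 * (1 / 8) ^ (max l L)) ≤ 3 * (1 / 2) ^ L * (1 / 2) ^ l := by
  have h1 : (1 / 8 : ℝ) ^ (max l L) ≤ (1 / 2) ^ (2 * l + L) := by
    have : (1 / 8 : ℝ) = (1 / 2) ^ 3 := by norm_num
    rw [this, ← pow_mul]
    refine pow_le_pow_of_le_one (by norm_num) (by norm_num) ?_
    have h2 := le_max_left l L
    have h3 := le_max_right l L
    omega
  have h2 : (2 : ℝ) ^ l * (1 / 2) ^ (2 * l + L) = (1 / 2) ^ L * (1 / 2) ^ l := by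
    rw [pow_add, two_mul, pow_add]
    have : (2 : ℝ) ^ l * (1 / 2) ^ l = 1 := by
      rw [← mul_pow]
      norm_num
    calc (2 : ℝ) ^ l * ((1 / 2) ^ l * (1 / 2) ^ l * (1 / 2) ^ L)
        = ((2 : ℝ) ^ l * (1 / 2) ^ l) * ((1 / 2) ^ L * (1 / 2) ^ l) := by ring
      _ = _ := by rw [this, one_mul]
  have h3 : (0 : ℝ) ≤ 2 ^ l := by positivity
  nlinarith [mul_le_mul_of_nonneg_left h1 h3]

private theorem PWb_small (y : ℕ → ℝ) (hy : Prof P y) (B : Finset ℕ) (lv : ℕ → ℕ) (L : ℕ)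
    (hL : ∀ j ∈ B, |y j| ≤ (1 / 64) ^ L) (hB : ∀ j ∈ B, |y j| ≤ (1 / 64) ^ lv j) :
    nX P (∑ j ∈ B, Finsupp.single j (2 ^ lv j * y j)) ≤ 6 * (1 / 2) ^ L := by
  have h1 : ∑ j ∈ B, Finsupp.single j (2 ^ lv j * y j) =
      ∑ l ∈ B.image lv, (2 : ℝ) ^ l • ∑ j ∈ B.filter (fun j => lv j = l),
        Finsupp.single j (y j) := by
    rw [← Finset.sum_fiberwise_of_maps_to (g := lv) (t := B.image lv)
      (fun j hj => Finset.mem_image_of_mem lv hj)]
    refine Finset.sum_congr rfl fun l _ => ?_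
    rw [Finset.smul_sum]
    refine Finset.sum_congr rfl fun j hj => ?_
    rw [(Finset.mem_filter.mp hj).2, Finsupp.smul_single, smul_eq_mul]
  rw [h1]
  refine (PWb_sum_le P _ _).trans ?_
  have h2 : ∀ l ∈ B.image lv, nX P ((2 : ℝ) ^ l • ∑ j ∈ B.filter (fun j => lv j = l),
      Finsupp.single j (y j)) ≤ 3 * (1 / 2) ^ L * (1 / 2) ^ l := by
    intro l _
    rw [nX_smul, abs_of_nonneg (by positivity)]
    refine le_trans (mul_le_mul_of_nonneg_left ?_ (by positivity)) (PWb_pow l L)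
    refine nX_omega P _ y _ (fun j hj => ?_) (fun k G _ hG => hy k G hG)
    have hj' := Finset.mem_filter.mp hj
    rcases max_choice l L with h | h
    · rw [h, ← hj'.2]
      exact hB j hj'.1
    · rw [h]
      exact hL j hj'.1
  refine (Finset.sum_le_sum h2).trans ?_
  rw [← Finset.mul_sum]
  have h3 := sum_half_le (B.image lv)
  have h4 : (0 : ℝ) ≤ 3 * (1 / 2) ^ L := by positivity
  nlinarith [mul_le_mul_of_nonneg_left h3 h4]

/-- ROW PWb. Pointwise bound. `∑ j ∈ F, single j (..) = ∑_{j ∈ F \ Bad} + ∑_{l ∈ F.image lv} 2 ^ l • ∑_{j ∈ F ∩ Bad, lv j = l} single j (y j)`; first part `≤ 3 (1/8)^L` (`nX_omega`).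
In the level `l` split `|y j| ≤ (1/64)^l` (then all entries are `≤ (1/64)^(max l L)`: `nX_omega` gives `3 (1/8)^(max l L)`, times `2^l`: `≤ 3 (1/2)^L (1/2)^l`) and
`(1/64)^l < |y j|` (`nX_single_le`: `≤ ∑ 3 |y j|`, times `2^l`). Sum: `3 (1/2)^L + 3 (1/2)^L * 2 = 9 (1/2)^L`. -/
theorem pointwise (y : ℕ → ℝ) (hy : Prof P y) (F Bad : Finset ℕ) (lv : ℕ → ℕ) (L : ℕ)
    (hL : ∀ j ∈ F, |y j| ≤ (1 / 64) ^ L) :
    nX P (∑ j ∈ F, Finsupp.single j (if j ∈ Bad then 2 ^ lv j * y j else y j)) ≤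
      9 * (1 / 2) ^ L +
        ∑ j ∈ F.filter (fun j => (1 / 64 : ℝ) ^ lv j < |y j|),
          (if j ∈ Bad then 3 * 2 ^ lv j * |y j| else 0) := by
  have e1 : ∑ j ∈ F, Finsupp.single j (if j ∈ Bad then 2 ^ lv j * y j else y j) =
      ∑ j ∈ F.filter (fun j => j ∉ Bad), Finsupp.single j (y j) +
      (∑ j ∈ (F.filter (fun j => j ∈ Bad)).filter (fun j => ¬ (1 / 64 : ℝ) ^ lv j < |y j|),
        Finsupp.single j (2 ^ lv j * y j) +
      ∑ j ∈ (F.filter (fun j => j ∈ Bad)).filter (fun j => (1 / 64 : ℝ) ^ lv j < |y j|),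
        Finsupp.single j (2 ^ lv j * y j)) := by
    rw [add_comm (∑ j ∈ (F.filter (fun j => j ∈ Bad)).filter
      (fun j => ¬ (1 / 64 : ℝ) ^ lv j < |y j|), Finsupp.single j (2 ^ lv j * y j)),
      Finset.sum_filter_add_sum_filter_not, add_comm,
      ← Finset.sum_filter_add_sum_filter_not F (fun j => j ∈ Bad)]
    congr 1
    · refine Finset.sum_congr rfl fun j hj => ?_
      rw [if_pos (Finset.mem_filter.mp hj).2]
    · refine Finset.sum_congr rfl fun j hj => ?_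
      rw [if_neg (Finset.mem_filter.mp hj).2]
  have e2 : ∑ j ∈ F.filter (fun j => (1 / 64 : ℝ) ^ lv j < |y j|),
      (if j ∈ Bad then 3 * 2 ^ lv j * |y j| else 0) =
      ∑ j ∈ (F.filter (fun j => j ∈ Bad)).filter (fun j => (1 / 64 : ℝ) ^ lv j < |y j|),
        3 * 2 ^ lv j * |y j| := by
    rw [Finset.filter_comm, Finset.sum_filter (p := fun j => j ∈ Bad)]
  have b1 : nX P (∑ j ∈ F.filter (fun j => j ∉ Bad), Finsupp.single j (y j)) ≤
      3 * (1 / 2) ^ L := by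
    refine (nX_omega P _ y L (fun j hj => hL j (Finset.mem_filter.mp hj).1)
      (fun k G _ hG => hy k G hG)).trans ?_
    exact mul_le_mul_of_nonneg_left (pow_le_pow_left₀ (by norm_num) (by norm_num) L) (by norm_num)
  have b2 := PWb_small P y hy ((F.filter (fun j => j ∈ Bad)).filter
      (fun j => ¬ (1 / 64 : ℝ) ^ lv j < |y j|)) lv L
    (fun j hj => hL j (Finset.mem_filter.mp (Finset.mem_filter.mp hj).1).1)
    (fun j hj => not_lt.mp (Finset.mem_filter.mp hj).2)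
  have b3 : nX P (∑ j ∈ (F.filter (fun j => j ∈ Bad)).filter
      (fun j => (1 / 64 : ℝ) ^ lv j < |y j|), Finsupp.single j (2 ^ lv j * y j)) ≤
      ∑ j ∈ (F.filter (fun j => j ∈ Bad)).filter (fun j => (1 / 64 : ℝ) ^ lv j < |y j|),
        3 * 2 ^ lv j * |y j| := by
    refine (PWb_sum_le P _ _).trans (Finset.sum_le_sum fun j _ => ?_)
    refine (nX_single_le P j _).trans (le_of_eq ?_)
    rw [abs_mul, abs_of_nonneg (by positivity : (0 : ℝ) ≤ 2 ^ lv j)]
    ring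
  rw [e1, e2]
  refine (nX_add_le P _ _).trans ?_
  have b4 := nX_add_le P (∑ j ∈ (F.filter (fun j => j ∈ Bad)).filter
      (fun j => ¬ (1 / 64 : ℝ) ^ lv j < |y j|), Finsupp.single j (2 ^ lv j * y j))
      (∑ j ∈ (F.filter (fun j => j ∈ Bad)).filter (fun j => (1 / 64 : ℝ) ^ lv j < |y j|),
        Finsupp.single j (2 ^ lv j * y j))
  linarith

end Pool.Agent.Lib.MP_a1a06b_an.LZ
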