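import Pool.Agent.Lib.MP_a1a06b_an.LZ.PWa

set_option autoImplicit false

open Finset Filter Topology
open scoped Classical

noncomputable section

namespace Pool.Agent.Lib.MP_a1a06b_an.LZ

/-- ROW SEa. Apply `exists_seq_of_forall_finset_exists` to pairs `(p, x)` with `r (p, x) (q, y) := p < q ∧ x < y ∧ b x < b y ∧ |a x y| ≤ (1/64)^q ∧ |a y x| ≤ (1/64)^q` (`P = True`): for a finite set `s` take `q = max p + 1` and `y` large.
In the resulting sequence `(q_k, y_k)` we have `k ≤ q_k`, so for `j < k`: `|a ..| ≤ (1/64)^k = (1/8)^(2k) ≤ (1/8)^(j+k)`. `ψ k = y_k`. -/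
theorem matrix_select (a : ℕ → ℕ → ℝ) (hc : ∀ n, Tendsto (fun m => a m n) atTop (𝓝 0))
    (hr : ∀ m, Tendsto (fun n => a m n) atTop (𝓝 0)) (b : ℕ → ℕ) (hb : Tendsto b atTop atTop) :
    ∃ ψ : ℕ → ℕ, StrictMono ψ ∧ StrictMono (fun k => b (ψ k)) ∧
      ∀ j k, j ≠ k → |a (ψ j) (ψ k)| ≤ (1 / 8) ^ (j + k) :=
  by
  have key := exists_seq_of_forall_finset_exists (α := ℕ × ℕ) (fun _ => True)
    (fun u v => u.1 < v.1 ∧ u.2 < v.2 ∧ b u.2 < b v.2 ∧
      |a u.2 v.2| ≤ (1 / 64 : ℝ) ^ v.1 ∧ |a v.2 u.2| ≤ (1 / 64 : ℝ) ^ v.1) (by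
    intro s _
    set q : ℕ := s.sup Prod.fst + 1 with hq
    have hpos : (0 : ℝ) < (1 / 64 : ℝ) ^ q := by positivity
    have hev : ∀ᶠ y in atTop, ∀ x ∈ s, x.2 < y ∧ b x.2 < b y ∧
        |a x.2 y| ≤ (1 / 64 : ℝ) ^ q ∧ |a y x.2| ≤ (1 / 64 : ℝ) ^ q := by
      rw [Filter.eventually_all_finset]
      intro x _
      have h1 : ∀ᶠ y in atTop, x.2 < y := eventually_gt_atTop _
      have h2 : ∀ᶠ y in atTop, b x.2 < b y := hb.eventually (eventually_gt_atTop _)
      have h3 : ∀ᶠ y in atTop, |a x.2 y| ≤ (1 / 64 : ℝ) ^ q := by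
        have h := (hr x.2).abs
        rw [abs_zero] at h
        exact h.eventually (Iic_mem_nhds hpos)
      have h4 : ∀ᶠ y in atTop, |a y x.2| ≤ (1 / 64 : ℝ) ^ q := by
        have h := (hc x.2).abs
        rw [abs_zero] at h
        exact h.eventually (Iic_mem_nhds hpos)
      filter_upwards [h1, h2, h3, h4] with y e1 e2 e3 e4
      exact ⟨e1, e2, e3, e4⟩
    obtain ⟨y, hy⟩ := hev.exists
    refine ⟨(q, y), trivial, ?_⟩
    intro x hx
    refine ⟨?_, hy x hx⟩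
    have : x.1 ≤ s.sup Prod.fst := Finset.le_sup (f := Prod.fst) hx
    show x.1 < q
    omega)
  obtain ⟨f, -, hf⟩ := key
  have hk : ∀ k, k ≤ (f k).1 := by
    intro k
    induction k with
    | zero => exact Nat.zero_le _
    | succ k ih => exact Nat.succ_le_of_lt (lt_of_le_of_lt ih (hf k (k + 1) (Nat.lt_succ_self k)).1)
  have hbd : ∀ j k, j < k → (1 / 64 : ℝ) ^ (f k).1 ≤ (1 / 8) ^ (j + k) := by
    intro j k hjk
    have e1 : (1 / 64 : ℝ) = (1 / 8) ^ 2 := by norm_num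
    rw [e1, ← pow_mul]
    apply pow_le_pow_of_le_one (by norm_num) (by norm_num)
    have := hk k
    omega
  refine ⟨fun k => (f k).2, ?_, ?_, ?_⟩
  · exact fun m n hmn => (hf m n hmn).2.1
  · exact fun m n hmn => (hf m n hmn).2.2.1
  · intro j k hjk
    rcases lt_or_gt_of_ne hjk with h | h
    · exact ((hf j k h).2.2.2.1).trans (hbd j k h)
    · rw [add_comm]
      exact ((hf k j h).2.2.2.2).trans (hbd k j h)

end Pool.Agent.Lib.MP_a1a06b_an.LZ
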