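import Pool.Agent.Lib.MP_a1a06b_an.LZ.SEa

set_option autoImplicit false

open Finset Filter Topology
open scoped Classical

noncomputable section

namespace Pool.Agent.Lib.MP_a1a06b_an.LZ

/-- ROW SEb. Choose `v n` with `‖v n‖ ≤ 1`, `c / 2 ≤ f n (v n)`. By compactness of `∏ [-1, 1]` (`IsCompact.tendsto_subseq` in `ℕ → ℝ`, or a diagonal argument) there are `φ` strictly increasing and `lim m` with `f m (v (φ n)) → lim m` as `n → ∞`, for all `m`.
For every `n` choose `p n ≥ n` with `|f (φ (p n)) (v (φ n))| ≤ c / 4` (`hz`). Let `z n = v (φ (p n)) - v (φ n)` and `g n = f (φ (p n))`: `g n (z n) ≥ c / 4`; `g m (z n) → 0` as `n → ∞` (`p n → ∞`) and `g m (z n) → 0` as `m → ∞` (`hz`). `matrix_select` for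
`a m n = g m (z n) / g n (z n)` and `b n = φ (p n)`; `θ k = φ (p (ψ k))`, `Z k = (g (ψ k) (z (ψ k)))⁻¹ • z (ψ k)`, `C = 8 / c`. -/
theorem select {E : Type*} [NormedAddCommGroup E] [NormedSpace ℝ E] (f : ℕ → E →L[ℝ] ℝ) (c : ℝ)
    (hc : 0 < c) (hf : ∀ n, c ≤ ‖f n‖) (hb : ∀ n, ‖f n‖ ≤ 1)
    (hz : ∀ x, Tendsto (fun n => f n x) atTop (𝓝 0)) :
    ∃ (θ : ℕ → ℕ) (Z : ℕ → E) (C : ℝ), StrictMono θ ∧ (∀ k, ‖Z k‖ ≤ C) ∧
      (∀ k, f (θ k) (Z k) = 1) ∧ ∀ j k, j ≠ k → |f (θ j) (Z k)| ≤ (1 / 8) ^ (j + k) := by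
  -- the vectors `v n`
  have hv : ∀ n, ∃ v : E, ‖v‖ ≤ 1 ∧ c / 2 ≤ f n v := by
    intro n
    obtain ⟨x, hx1, hx2⟩ := (f n).exists_lt_apply_of_lt_opNorm
      (show c / 2 < ‖f n‖ by have := hf n; linarith)
    rw [Real.norm_eq_abs] at hx2
    rcases le_total 0 (f n x) with h | h
    · rw [abs_of_nonneg h] at hx2
      exact ⟨x, hx1.le, hx2.le⟩
    · rw [abs_of_nonpos h] at hx2
      refine ⟨-x, by rw [norm_neg]; exact hx1.le, ?_⟩
      rw [map_neg]
      exact hx2.le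
  choose v hv1 hv2 using hv
  -- the subsequence `φ`
  have hK : IsCompact (Set.univ.pi (fun _ : ℕ => Set.Icc (-1 : ℝ) 1)) :=
    isCompact_univ_pi fun _ => isCompact_Icc
  have hmem : ∀ n : ℕ, (fun m => f m (v n)) ∈ Set.univ.pi (fun _ : ℕ => Set.Icc (-1 : ℝ) 1) := by
    intro n m _
    have h1 : |f m (v n)| ≤ 1 := by
      have h2 := (f m).le_opNorm (v n)
      rw [Real.norm_eq_abs] at h2
      have h3 : ‖f m‖ * ‖v n‖ ≤ 1 * 1 :=
        mul_le_mul (hb m) (hv1 n) (norm_nonneg _) zero_le_one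
      linarith
    exact abs_le.1 h1
  obtain ⟨lim, -, φ, hφ, hlim⟩ := hK.tendsto_subseq hmem
  rw [tendsto_pi_nhds] at hlim
  have hφt : Tendsto φ atTop atTop := hφ.tendsto_atTop
  -- the indices `p n`
  have hp : ∀ n, ∃ p : ℕ, n ≤ p ∧ |f (φ p) (v (φ n))| ≤ c / 4 := by
    intro n
    have h1 : Tendsto (fun p => f (φ p) (v (φ n))) atTop (𝓝 0) := (hz (v (φ n))).comp hφt
    have h2 : ∀ᶠ p in atTop, |f (φ p) (v (φ n))| ≤ c / 4 := by
      have h3 := h1.abs
      rw [abs_zero] at h3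
      exact h3.eventually (eventually_le_nhds (show (0 : ℝ) < c / 4 by linarith))
    obtain ⟨p, hp1, hp2⟩ := (h2.and (eventually_ge_atTop n)).exists
    exact ⟨p, hp2, hp1⟩
  choose p hp1 hp2 using hp
  have hpt : Tendsto p atTop atTop := tendsto_atTop_mono hp1 tendsto_id
  have hbt : Tendsto (fun n => φ (p n)) atTop atTop := hφt.comp hpt
  set z : ℕ → E := fun n => v (φ (p n)) - v (φ n) with hzdef
  have hgz : ∀ n, c / 4 ≤ f (φ (p n)) (z n) := by
    intro n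
    have h1 := hv2 (φ (p n))
    have h2 := (abs_le.1 (hp2 n)).2
    simp only [hzdef, map_sub]
    linarith
  have hgz0 : ∀ n, 0 < f (φ (p n)) (z n) := fun n => lt_of_lt_of_le (by linarith) (hgz n)
  have hrow : ∀ m, Tendsto (fun n => f m (z n)) atTop (𝓝 0) := by
    intro m
    have h1 : Tendsto (fun n => f m (v (φ n))) atTop (𝓝 (lim m)) := hlim m
    have h2 : Tendsto (fun n => f m (v (φ (p n)))) atTop (𝓝 (lim m)) := h1.comp hpt
    have h3 := h2.sub h1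
    rw [sub_self] at h3
    refine h3.congr fun n => ?_
    simp only [hzdef, map_sub]
  have hznorm : ∀ n, ‖z n‖ ≤ 2 := by
    intro n
    calc ‖z n‖ ≤ ‖v (φ (p n))‖ + ‖v (φ n)‖ := norm_sub_le _ _
      _ ≤ 1 + 1 := add_le_add (hv1 _) (hv1 _)
      _ = 2 := by norm_num
  obtain ⟨ψ, hψ, hbψ, ha⟩ := matrix_select
    (fun m n => f (φ (p m)) (z n) / f (φ (p n)) (z n)) (by
      intro n
      have h1 : Tendsto (fun m => f (φ (p m)) (z n)) atTop (𝓝 0) := (hz (z n)).comp hbt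
      have h2 := h1.div_const (f (φ (p n)) (z n))
      rw [zero_div] at h2
      exact h2) (by
      intro m
      have h1 : Tendsto (fun n => |f (φ (p m)) (z n)| * (4 / c)) atTop (𝓝 0) := by
        have h2 := ((hrow (φ (p m))).abs).mul_const (4 / c)
        rw [abs_zero, zero_mul] at h2
        exact h2
      refine squeeze_zero_norm (fun n => ?_) h1
      rw [Real.norm_eq_abs, abs_div, abs_of_pos (hgz0 n), div_eq_mul_inv]
      refine mul_le_mul_of_nonneg_left ?_ (abs_nonneg _)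
      rw [inv_le_comm₀ (hgz0 n) (by positivity), inv_div]
      exact hgz n)
    (fun n => φ (p n)) hbt
  refine ⟨fun k => φ (p (ψ k)), fun k => (f (φ (p (ψ k))) (z (ψ k)))⁻¹ • z (ψ k), 8 / c, hbψ,
    ?_, ?_, ?_⟩
  · intro k
    rw [norm_smul, norm_inv, Real.norm_eq_abs, abs_of_pos (hgz0 _)]
    have h1 : (f (φ (p (ψ k))) (z (ψ k)))⁻¹ ≤ 4 / c := by
      rw [inv_le_comm₀ (hgz0 _) (by positivity), inv_div]
      exact hgz _
    calc (f (φ (p (ψ k))) (z (ψ k)))⁻¹ * ‖z (ψ k)‖ ≤ (4 / c) * 2 :=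
          mul_le_mul h1 (hznorm _) (norm_nonneg _) (by positivity)
      _ = 8 / c := by ring
  · intro k
    rw [map_smul, smul_eq_mul]
    exact inv_mul_cancel₀ (hgz0 _).ne'
  · intro j k hjk
    have h1 := ha j k hjk
    rw [map_smul, smul_eq_mul]
    rw [div_eq_mul_inv, mul_comm] at h1
    exact h1

end Pool.Agent.Lib.MP_a1a06b_an.LZ
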