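import Pool.Agent.Lib.MP_a1a06b_an.LZ.PWa

set_option autoImplicit false

open Finset Filter Topology
open scoped Classical

noncomputable section

namespace Pool.Agent.Lib.MP_a1a06b_an.LZ

/-- `sup ‖∑_F ± f n‖ = o(|F|)`. -/
def UCes {E : Type*} [NormedAddCommGroup E] [NormedSpace ℝ E] (f : ℕ → E →L[ℝ] ℝ) : Prop :=
  ∀ ε : ℝ, 0 < ε → ∃ K : ℕ, ∀ F : Finset ℕ, K ≤ F.card → ∀ σ : ℕ → ℝ, (∀ n, |σ n| ≤ 1) →
    ‖∑ n ∈ F, σ n • f n‖ ≤ ε * F.card

private theorem SEc_bound {E : Type*} [NormedAddCommGroup E] [NormedSpace ℝ E]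
    (f : ℕ → E →L[ℝ] ℝ) (N : ℕ) (hN : 1 ≤ N)
    (h : ∀ F : Finset ℕ, F.card = N → ∀ σ : ℕ → ℝ, (∀ n, |σ n| ≤ 1) →
      ‖∑ n ∈ F, σ n • f n‖ ≤ N) (n : ℕ) : ‖f n‖ ≤ N := by
  obtain ⟨F, hF1, hF2⟩ := Infinite.exists_superset_card_eq ({n} : Finset ℕ) N
    (by rw [Finset.card_singleton]; exact hN)
  have hn : n ∈ F := hF1 (Finset.mem_singleton_self n)
  have h1 := h F hF2 (fun _ => 1) (fun _ => by rw [abs_one])
  have h2 := h F hF2 (fun m => if m = n then -1 else 1) (fun m => by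
    split_ifs
    · rw [abs_neg, abs_one]
    · rw [abs_one])
  have h3 : (∑ m ∈ F, (1 : ℝ) • f m) - (∑ m ∈ F, (if m = n then (-1 : ℝ) else 1) • f m)
      = (2 : ℝ) • f n := by
    rw [← Finset.sum_sub_distrib, Finset.sum_eq_single n]
    · rw [if_pos rfl]
      ext y
      simp only [_root_.sub_apply, _root_.smul_apply, smul_eq_mul]
      ring
    · intro m _ hm
      rw [if_neg hm, sub_self]
    · intro hn'
      exact absurd hn hn'
  have h4 : ‖(2 : ℝ) • f n‖ ≤ N + N := by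
    rw [← h3]
    exact (norm_sub_le _ _).trans (add_le_add h1 h2)
  rw [norm_smul, Real.norm_of_nonneg zero_le_two] at h4
  linarith

private theorem SEc_sum {E : Type*} [NormedAddCommGroup E] [NormedSpace ℝ E]
    (f : ℕ → E →L[ℝ] ℝ) (F : Finset ℕ) (B : ℝ) (hB : 0 ≤ B)
    (h : ∀ σ : ℕ → ℝ, (∀ n, |σ n| ≤ 1) → ‖∑ n ∈ F, σ n • f n‖ ≤ B) (x : E) (hx : ‖x‖ ≤ 1) :
    ∑ n ∈ F, |f n x| ≤ B := by
  have h1 := h (fun n => if 0 ≤ f n x then 1 else -1) (fun n => by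
    split_ifs
    · rw [abs_one]
    · rw [abs_neg, abs_one])
  have h2 : (∑ n ∈ F, (if 0 ≤ f n x then (1 : ℝ) else -1) • f n) x = ∑ n ∈ F, |f n x| := by
    rw [_root_.sum_apply]
    refine Finset.sum_congr rfl fun n _ => ?_
    rw [_root_.smul_apply, smul_eq_mul]
    split_ifs with h3
    · rw [one_mul, abs_of_nonneg h3]
    · rw [abs_of_neg (not_le.1 h3)]
      ring
  rw [← h2]
  refine (le_abs_self _).trans ?_
  rw [← Real.norm_eq_abs]
  refine (ContinuousLinearMap.le_opNorm _ x).trans ?_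
  calc _ ≤ B * 1 := mul_le_mul h1 hx (norm_nonneg _) hB
    _ = B := mul_one B

/-- ROW SEc. `ε = 1` gives `K`; `R = max K 1`: for `n` take `F ∋ n` with `K ≤ card F = max K 1`; with `σ = 1` and with `σ n = -1`, `σ = 1` elsewhere: the difference is `2 f n`, so `‖f n‖ ≤ card F = R`.
`A 0 = 1`; for `k ≥ 1` let `A k = max (8 ^ k) (K_k)`, `K_k` for `ε = (1/64)^k`. For `card G ≤ A k` extend `G` to `F` with `card F = A k` (`Infinite.exists_superset_card_eq` or the like): `∑_G |f n x| ≤ ∑_F |f n x| = (∑_F σ n f n) x ≤ (1/64)^k A k` with `σ n = sign (f n x)`.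
(For `k = 0`: `card G ≤ 1` and `|R⁻¹ f n x| ≤ 1`.) -/
theorem exists_par {E : Type*} [NormedAddCommGroup E] [NormedSpace ℝ E] (f : ℕ → E →L[ℝ] ℝ)
    (h : UCes f) : ∃ (R : ℝ) (P : Par), 1 ≤ R ∧ ∀ x : E, ‖x‖ ≤ 1 →
      Prof P (fun n => R⁻¹ * f n x) := by
  obtain ⟨K0, hK0⟩ := h 1 one_pos
  have hpos : ∀ k : ℕ, (0 : ℝ) < (1 / 64) ^ k := fun k => pow_pos (by norm_num) k
  choose K hK using fun k : ℕ => h ((1 / 64) ^ k) (hpos k)
  have hR1 : (1 : ℝ) ≤ ((max K0 1 : ℕ) : ℝ) := by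
    exact_mod_cast le_max_right K0 1
  have hfR : ∀ n, ‖f n‖ ≤ ((max K0 1 : ℕ) : ℝ) := by
    intro n
    apply SEc_bound f (max K0 1) (le_max_right _ _)
    intro F hF σ hσ
    have h1 := hK0 F (by rw [hF]; exact le_max_left _ _) σ hσ
    rwa [one_mul, hF] at h1
  refine ⟨((max K0 1 : ℕ) : ℝ), ⟨fun k => if k = 0 then 1 else max (8 ^ k) (K k), if_pos rfl, ?_⟩,
    hR1, ?_⟩
  · intro l
    show 8 ^ l ≤ if l = 0 then 1 else max (8 ^ l) (K l)
    split_ifs with hl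
    · rw [hl, pow_zero]
    · exact le_max_left _ _
  · intro x hx k G hG
    have hR0 : (0 : ℝ) < ((max K0 1 : ℕ) : ℝ) := lt_of_lt_of_le one_pos hR1
    have habs : ∀ n, |((max K0 1 : ℕ) : ℝ)⁻¹ * f n x| = ((max K0 1 : ℕ) : ℝ)⁻¹ * |f n x| := by
      intro n
      rw [abs_mul, abs_of_pos (inv_pos.2 hR0)]
    change G.card ≤ (if k = 0 then 1 else max (8 ^ k) (K k)) at hG
    change ∑ j ∈ G, |((max K0 1 : ℕ) : ℝ)⁻¹ * f j x| ≤
      (1 / 64) ^ k * ((if k = 0 then 1 else max (8 ^ k) (K k) : ℕ) : ℝ)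
    by_cases hk : k = 0
    · subst hk
      rw [if_pos rfl] at hG ⊢
      rw [pow_zero, one_mul, Nat.cast_one]
      have h1 : ∀ j ∈ G, |((max K0 1 : ℕ) : ℝ)⁻¹ * f j x| ≤ 1 := by
        intro j _
        rw [habs, inv_mul_le_iff₀ hR0, mul_one]
        calc |f j x| = ‖f j x‖ := (Real.norm_eq_abs _).symm
          _ ≤ ‖f j‖ * ‖x‖ := ContinuousLinearMap.le_opNorm _ _
          _ ≤ ((max K0 1 : ℕ) : ℝ) * 1 := mul_le_mul (hfR j) hx (norm_nonneg _) hR0.le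
          _ = ((max K0 1 : ℕ) : ℝ) := mul_one _
      have h2 := Finset.sum_le_card_nsmul G _ 1 h1
      rw [nsmul_eq_mul, mul_one] at h2
      refine h2.trans ?_
      exact_mod_cast hG
    · rw [if_neg hk] at hG ⊢
      obtain ⟨F, hF1, hF2⟩ := Infinite.exists_superset_card_eq G (max (8 ^ k) (K k)) hG
      have h1 : ∑ n ∈ F, |f n x| ≤ (1 / 64) ^ k * ((max (8 ^ k) (K k) : ℕ) : ℝ) := by
        apply SEc_sum f F _ (mul_nonneg (hpos k).le (Nat.cast_nonneg _)) _ x hx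
        intro σ hσ
        have h2 := hK k F (by rw [hF2]; exact le_max_right _ _) σ hσ
        rwa [hF2] at h2
      refine le_trans ?_ h1
      refine le_trans (Finset.sum_le_sum fun j _ => ?_)
        (Finset.sum_le_sum_of_subset_of_nonneg hF1 fun j _ _ => abs_nonneg _)
      rw [habs]
      exact mul_le_of_le_one_left (abs_nonneg _) (inv_le_one_of_one_le₀ hR1)

end Pool.Agent.Lib.MP_a1a06b_an.LZ
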