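import Pool.Agent.Lib.MP_a1a06b_an.LZ.M2
import Pool.Agent.Lib.MP_a1a06b_an.LZ.PWb

set_option autoImplicit false

open Finset MeasureTheory
open scoped Classical ENNReal

noncomputable section

namespace Pool.Agent.Lib.MP_a1a06b_an.LZ

variable (P : Par) {Ω : Type} [MeasurableSpace Ω] (μ : Measure Ω) [IsProbabilityMeasure μ]

/-- Classes of simple functions. -/
def Th : SimpleFunc Ω (ℕ →₀ ℝ) →+ Lp (MM P) 1 μ where
  toFun := fun u => MemLp.toLp (u.map (cls P)) ((u.map (cls P)).memLp_of_isFiniteMeasure 1 μ)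
  map_zero' := by
    rw [Lp.eq_zero_iff_ae_eq_zero]
    refine (MemLp.coeFn_toLp _).trans (Filter.Eventually.of_forall fun s => ?_)
    rw [SimpleFunc.map_apply, SimpleFunc.coe_zero, Pi.zero_apply, map_zero, Pi.zero_apply]
  map_add' := by
    intro u v
    rw [← MemLp.toLp_add]
    refine MemLp.toLp_congr _ _ (Filter.Eventually.of_forall fun s => ?_)
    rw [Pi.add_apply, SimpleFunc.map_apply, SimpleFunc.map_apply, SimpleFunc.map_apply,
      SimpleFunc.coe_add, Pi.add_apply, map_add]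

/-- ROW TH. `‖Th u‖ = ∫ ‖cls (u s)‖ ≤ ∫ nX (u s)`. (`Lp.norm_toLp`, `eLpNorm_one_eq_lintegral_enorm`, or `L1.norm_of_fun_eq_integral_norm`.) -/
theorem norm_Th_le (u : SimpleFunc Ω (ℕ →₀ ℝ)) : ‖Th P μ u‖ ≤ ∫ s, nX P (u s) ∂μ := by
  have h1 : ‖Th P μ u‖ = ∫ s, ‖(u.map (cls P)) s‖ ∂μ := by
    have h2 : Th P μ u = MemLp.toLp (u.map (cls P))
      ((u.map (cls P)).memLp_of_isFiniteMeasure 1 μ) := rfl
    rw [h2, Lp.norm_toLp, eLpNorm_one_eq_lintegral_enorm,
      integral_norm_eq_lintegral_enorm (u.map (cls P)).aestronglyMeasurable]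
  rw [h1]
  refine integral_mono (u.map (cls P)).integrable_of_isFiniteMeasure.norm
    (u.map (nX P)).integrable_of_isFiniteMeasure fun s => ?_
  show ‖(u.map (cls P)) s‖ ≤ (u.map (nX P)) s
  rw [SimpleFunc.map_apply, SimpleFunc.map_apply]
  exact norm_cls_le P (u s)

theorem Th_congr (u v : SimpleFunc Ω (ℕ →₀ ℝ)) (h : ∀ s, cls P (u s) = cls P (v s)) :
    Th P μ u = Th P μ v := by
  refine MemLp.toLp_congr ((u.map (cls P)).memLp_of_isFiniteMeasure 1 μ)
    ((v.map (cls P)).memLp_of_isFiniteMeasure 1 μ) (Filter.Eventually.of_forall fun s => ?_)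
  rw [SimpleFunc.map_apply, SimpleFunc.map_apply]
  exact h s

/-- The value of `u j`: `x` is replaced by a multiple of a new coordinate. -/
def uval (l j : ℕ) (x : ℕ →₀ ℚ) : ℕ →₀ ℝ :=
  if Good P x l then Finsupp.single (coord x l j) 1 else Finsupp.single (coord x 0 j) (2 ^ l)

/-- `cls ((1/2)^l • uval x) = cls (ratv x)`: `cls_rel` for `Good P x l`, resp. for `l = 0` (`Good P x 0` always holds). -/
theorem cls_uval (l j : ℕ) (x : ℕ →₀ ℚ) :
    cls P ((1 / 2 : ℝ) ^ l • uval P l j x) = cls P (ratv x) := by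
  unfold uval
  by_cases h : Good P x l
  · rw [if_pos h, Finsupp.smul_single, smul_eq_mul, mul_one]
    exact (cls_rel P h j).symm
  · rw [if_neg h, Finsupp.smul_single, smul_eq_mul, ← mul_pow]
    have h0 := cls_rel P (x := x) (l := 0) (Or.inl rfl) j
    rw [h0]
    norm_num

/-- `nX_reindex` with `c j = coord (x j) (lv j) j` or `coord (x j) 0 j` (injective by `coord_inj`), `a j = y j * κ j`; `∑ y j • uval .. = ∑ single (c j) (a j)`. -/
theorem nX_uval_le (y : ℕ → ℝ) (F : Finset ℕ) (lv : ℕ → ℕ) (x : ℕ → (ℕ →₀ ℚ)) :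
    nX P (∑ j ∈ F, y j • uval P (lv j) j (x j)) ≤
      nX P (∑ j ∈ F, Finsupp.single j
        (if j ∈ F.filter (fun j => ¬ Good P (x j) (lv j)) then 2 ^ lv j * y j else y j)) := by
  have h1 : ∀ j, y j • uval P (lv j) j (x j) =
      Finsupp.single (if Good P (x j) (lv j) then coord (x j) (lv j) j else coord (x j) 0 j)
        (if Good P (x j) (lv j) then y j else 2 ^ lv j * y j) := by
    intro j
    unfold uval
    by_cases h : Good P (x j) (lv j)
    · rw [if_pos h, if_pos h, if_pos h, Finsupp.smul_single, smul_eq_mul, mul_one]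
    · rw [if_neg h, if_neg h, if_neg h, Finsupp.smul_single, smul_eq_mul, mul_comm]
  have hc : Set.InjOn
      (fun j => if Good P (x j) (lv j) then coord (x j) (lv j) j else coord (x j) 0 j)
      (↑F : Set ℕ) := by
    intro i _ j _ hij
    dsimp only at hij
    split_ifs at hij
    · exact (coord_inj hij).2.2
    · exact (coord_inj hij).2.2
    · exact (coord_inj hij).2.2
    · exact (coord_inj hij).2.2
  have h2 : (∑ j ∈ F, y j • uval P (lv j) j (x j)) =
      ∑ j ∈ F, Finsupp.single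
        ((fun j => if Good P (x j) (lv j) then coord (x j) (lv j) j else coord (x j) 0 j) j)
        ((fun j => if Good P (x j) (lv j) then y j else 2 ^ lv j * y j) j) :=
    Finset.sum_congr rfl fun j _ => h1 j
  have h3 : (∑ j ∈ F, Finsupp.single j
      (if j ∈ F.filter (fun j => ¬ Good P (x j) (lv j)) then 2 ^ lv j * y j else y j)) =
      ∑ j ∈ F, Finsupp.single j
        ((fun j => if Good P (x j) (lv j) then y j else 2 ^ lv j * y j) j) := by
    refine Finset.sum_congr rfl fun j hj => ?_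
    congr 1
    by_cases h : Good P (x j) (lv j)
    · have h4 : j ∉ F.filter (fun j => ¬ Good P (x j) (lv j)) := by
        rw [Finset.mem_filter]
        exact fun h5 => h5.2 h
      rw [if_neg h4]
      exact (if_pos h).symm
    · have h4 : j ∈ F.filter (fun j => ¬ Good P (x j) (lv j)) := by
        rw [Finset.mem_filter]
        exact ⟨hj, h⟩
      rw [if_pos h4]
      exact (if_neg h).symm
  rw [h2, h3]
  exact nX_reindex P F _ hc _

/-- A family of simple functions with levels. -/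
structure Fam where
  lv : ℕ → ℕ
  a : ℕ → SimpleFunc Ω (ℕ →₀ ℚ)
  bad : ∀ j, μ {s | ¬ Good P (a j s) (lv j)} ≤
    ENNReal.ofReal (1 / (16 ^ lv j * (P.A (lv j) : ℝ)))

variable {P μ}

/-- The function `u j`. -/
def Fam.u (𝓕 : Fam P μ) (j : ℕ) : SimpleFunc Ω (ℕ →₀ ℝ) := (𝓕.a j).map (uval P (𝓕.lv j) j)

variable (P μ)

end Pool.Agent.Lib.MP_a1a06b_an.LZ
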