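import Mathlib

/-!
The symmetric norm `nX P y = ∑ l, w l * (sum of the A l largest |y i|)`, `w l = 2 ^ (l + 1) / A l`.
-/

set_option autoImplicit false

open Finset

noncomputable section

namespace Pool.Agent.Lib.MP_a1a06b_an.LZ

/-- The parameters `A l`, `A 0 = 1`, `8 ^ l ≤ A l`. -/
structure Par where
  A : ℕ → ℕ
  zero : A 0 = 1
  ge : ∀ l, 8 ^ l ≤ A l

/-- The sum of the `n` largest absolute values of the coordinates. -/
def S (n : ℕ) (y : ℕ →₀ ℝ) : ℝ := sSup {r | ∃ F : Finset ℕ, F.card ≤ n ∧ r = ∑ i ∈ F, |y i|}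

/-- The weights. -/
def Par.w (P : Par) (l : ℕ) : ℝ := 2 ^ (l + 1) / (P.A l : ℝ)

/-- The norm. -/
def nX (P : Par) (y : ℕ →₀ ℝ) : ℝ := ∑' l, P.w l * S (P.A l) y

/-! ROW X1: facts on `S`. -/

theorem sum_le_l1 (F : Finset ℕ) (y : ℕ →₀ ℝ) : ∑ i ∈ F, |y i| ≤ ∑ i ∈ y.support, |y i| := by
  classical
  have h1 : ∑ i ∈ F, |y i| = ∑ i ∈ F.filter (fun i => y i ≠ 0), |y i| := by
    symm
    apply Finset.sum_subset (Finset.filter_subset _ _)
    intro i hi hn
    simp only [Finset.mem_filter, not_and, not_not] at hn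
    rw [hn hi, abs_zero]
  rw [h1]
  apply Finset.sum_le_sum_of_subset_of_nonneg
  · intro i hi
    rw [Finset.mem_filter] at hi
    exact Finsupp.mem_support_iff.mpr hi.2
  · intro i _ _
    exact abs_nonneg _

private theorem bddAbove_S (n : ℕ) (y : ℕ →₀ ℝ) :
    BddAbove {r | ∃ F : Finset ℕ, F.card ≤ n ∧ r = ∑ i ∈ F, |y i|} := by
  refine ⟨∑ i ∈ y.support, |y i|, ?_⟩
  rintro r ⟨F, _, rfl⟩
  exact sum_le_l1 F y

theorem le_S {n : ℕ} {F : Finset ℕ} (hF : F.card ≤ n) (y : ℕ →₀ ℝ) : ∑ i ∈ F, |y i| ≤ S n y :=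
  le_csSup (bddAbove_S n y) ⟨F, hF, rfl⟩

theorem S_le {n : ℕ} {y : ℕ →₀ ℝ} {B : ℝ}
    (h : ∀ F : Finset ℕ, F.card ≤ n → ∑ i ∈ F, |y i| ≤ B) : S n y ≤ B := by
  apply csSup_le
  · exact ⟨_, ∅, by simp, rfl⟩
  · rintro r ⟨F, hF, rfl⟩
    exact h F hF

theorem S_nonneg (n : ℕ) (y : ℕ →₀ ℝ) : 0 ≤ S n y := by
  have h := le_S (n := n) (F := ∅) (by simp) y
  simpa using h

theorem S_zero (n : ℕ) : S n 0 = 0 := by
  apply le_antisymm
  · apply S_le
    intro F _
    simp
  · exact S_nonneg n 0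

theorem S_mono {n : ℕ} {y z : ℕ →₀ ℝ} (h : ∀ i, |y i| ≤ |z i|) : S n y ≤ S n z := by
  apply S_le
  intro F hF
  exact (Finset.sum_le_sum fun i _ => h i).trans (le_S hF z)

theorem S_add_le (n : ℕ) (y z : ℕ →₀ ℝ) : S n (y + z) ≤ S n y + S n z := by
  apply S_le
  intro F hF
  calc ∑ i ∈ F, |(y + z) i| ≤ ∑ i ∈ F, (|y i| + |z i|) := by
        apply Finset.sum_le_sum
        intro i _
        rw [Finsupp.add_apply]
        exact abs_add_le _ _
    _ = ∑ i ∈ F, |y i| + ∑ i ∈ F, |z i| := Finset.sum_add_distrib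
    _ ≤ S n y + S n z := add_le_add (le_S hF y) (le_S hF z)

private theorem S_smul_le (n : ℕ) (c : ℝ) (y : ℕ →₀ ℝ) : S n (c • y) ≤ |c| * S n y := by
  apply S_le
  intro F hF
  have h1 : ∑ i ∈ F, |(c • y) i| = |c| * ∑ i ∈ F, |y i| := by
    rw [Finset.mul_sum]
    apply Finset.sum_congr rfl
    intro i _
    rw [Finsupp.smul_apply, smul_eq_mul, abs_mul]
  rw [h1]
  exact mul_le_mul_of_nonneg_left (le_S hF y) (abs_nonneg c)

theorem S_smul (n : ℕ) (c : ℝ) (y : ℕ →₀ ℝ) : S n (c • y) = |c| * S n y := by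
  apply le_antisymm (S_smul_le n c y)
  rcases eq_or_ne c 0 with rfl | hc
  · rw [abs_zero, zero_mul]
    exact S_nonneg _ _
  · have h1 := S_smul_le n c⁻¹ (c • y)
    rw [smul_smul, inv_mul_cancel₀ hc, one_smul, abs_inv] at h1
    have h2 : 0 < |c| := abs_pos.mpr hc
    calc |c| * S n y ≤ |c| * (|c|⁻¹ * S n (c • y)) := mul_le_mul_of_nonneg_left h1 h2.le
      _ = S n (c • y) := by rw [← mul_assoc, mul_inv_cancel₀ h2.ne', one_mul]

theorem S_neg (n : ℕ) (y : ℕ →₀ ℝ) : S n (-y) = S n y := by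
  have h := S_smul n (-1) y
  rw [neg_one_smul, abs_neg, abs_one, one_mul] at h
  exact h

theorem S_le_l1 (n : ℕ) (y : ℕ →₀ ℝ) : S n y ≤ ∑ i ∈ y.support, |y i| :=
  S_le fun F _ => sum_le_l1 F y

theorem S_single_le (n m : ℕ) (t : ℝ) : S n (Finsupp.single m t) ≤ |t| := by
  classical
  apply S_le
  intro F _
  have h1 : ∑ i ∈ F, |(Finsupp.single m t) i| = ∑ i ∈ F, if i = m then |t| else 0 := by
    apply Finset.sum_congr rfl
    intro i _
    rw [Finsupp.single_apply]
    by_cases h : m = i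
    · rw [if_pos h, if_pos h.symm]
    · rw [if_neg h, if_neg (fun h' => h h'.symm), abs_zero]
  rw [h1, Finset.sum_ite_eq']
  split_ifs
  · exact le_refl _
  · exact abs_nonneg _

theorem abs_le_S {n : ℕ} (hn : 1 ≤ n) (y : ℕ →₀ ℝ) (i : ℕ) : |y i| ≤ S n y := by
  have h := le_S (n := n) (F := {i}) (by simpa using hn) y
  simpa using h

/-- Adding a fresh coordinate. Let `F` be a set with at most `n` elements; without loss of generality `m ∉ F` (`z m = 0`).
If `card F < n` use `insert m F`. If `card F = n`, then `F` is nonempty, let `i` in `F` with `|z i|` minimal: `n |z i| ≤ ∑_F |z| ≤ S n z ≤ n τ`,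
so `|z i| ≤ τ`; use `insert m (F.erase i)`. -/
theorem S_fresh {n : ℕ} (hn : 1 ≤ n) {z : ℕ →₀ ℝ} {m : ℕ} (hm : z m = 0) {τ : ℝ} (hτ : 0 ≤ τ)
    (h : S n z ≤ n * τ) (t : ℝ) : S n z + |t| - τ ≤ S n (z + Finsupp.single m t) := by
  classical
  have hval : ∀ G : Finset ℕ, m ∉ G →
      ∑ i ∈ insert m G, |(z + Finsupp.single m t) i| = |t| + ∑ i ∈ G, |z i| := by
    intro G hG
    rw [Finset.sum_insert hG]
    congr 1
    · rw [Finsupp.add_apply, hm, Finsupp.single_eq_same, zero_add]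
    · apply Finset.sum_congr rfl
      intro i hi
      have hne : m ≠ i := fun h' => hG (h' ▸ hi)
      rw [Finsupp.add_apply, Finsupp.single_apply, if_neg hne, add_zero]
  suffices hs : S n z ≤ S n (z + Finsupp.single m t) - |t| + τ by linarith
  apply S_le
  intro F0 hF0
  set F := F0.erase m with hFdef
  have hmF : m ∉ F := Finset.notMem_erase m F0
  have hFc : F.card ≤ n := (Finset.card_erase_le).trans hF0
  have hsum : ∑ i ∈ F0, |z i| = ∑ i ∈ F, |z i| := by
    by_cases hmem : m ∈ F0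
    · rw [← Finset.add_sum_erase F0 (fun i => |z i|) hmem, hm, abs_zero, zero_add]
    · rw [hFdef, Finset.erase_eq_of_notMem hmem]
  rw [hsum]
  rcases Nat.lt_or_ge F.card n with hlt | hge
  · have h1 : (insert m F).card ≤ n := by
      rw [Finset.card_insert_of_notMem hmF]
      omega
    have h2 := le_S h1 (z + Finsupp.single m t)
    rw [hval F hmF] at h2
    linarith
  · have hcard : F.card = n := le_antisymm hFc hge
    have hne : F.Nonempty := by
      rw [← Finset.card_pos]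
      omega
    obtain ⟨i, hi, hmin⟩ := Finset.exists_min_image F (fun i => |z i|) hne
    have h3 : (n : ℝ) * |z i| ≤ ∑ j ∈ F, |z j| := by
      have h4 := Finset.card_nsmul_le_sum F (fun j => |z j|) (|z i|) (fun j hj => hmin j hj)
      rw [nsmul_eq_mul, hcard] at h4
      exact h4
    have h5 : (n : ℝ) * |z i| ≤ n * τ := h3.trans ((le_S hFc z).trans h)
    have hnpos : (0 : ℝ) < n := by exact_mod_cast (show 0 < n by omega)
    have h6 : |z i| ≤ τ := le_of_mul_le_mul_left h5 hnpos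
    have hmE : m ∉ F.erase i := fun h' => hmF (Finset.mem_of_mem_erase h')
    have h7 : (insert m (F.erase i)).card ≤ n := by
      rw [Finset.card_insert_of_notMem hmE, Finset.card_erase_of_mem hi]
      omega
    have h8 := le_S h7 (z + Finsupp.single m t)
    rw [hval _ hmE] at h8
    have h9 : |z i| + ∑ j ∈ F.erase i, |z j| = ∑ j ∈ F, |z j| :=
      Finset.add_sum_erase F (fun j => |z j|) hi
    linarith

private theorem X1_sum_apply (F : Finset ℕ) (c : ℕ → ℕ) (a : ℕ → ℝ) (i : ℕ) :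
    (∑ j ∈ F, Finsupp.single (c j) (a j)) i = ∑ j ∈ F, if c j = i then a j else 0 := by
  classical
  rw [Finsupp.finsetSum_apply]
  apply Finset.sum_congr rfl
  intro j _
  rw [Finsupp.single_apply]

/-- Reindexing by an injective map. `(∑ j ∈ F, single (c j) (a j)) i` is `a j` if `i = c j` with `j ∈ F`, else `0`. For a set `G` with at most `n`
elements, `∑_{i ∈ G} |..| = ∑_{j ∈ F, c j ∈ G} |a j|`, and `{j ∈ F : c j ∈ G}` has at most `n` elements. -/
theorem S_reindex (n : ℕ) (F : Finset ℕ) (c : ℕ → ℕ) (hc : Set.InjOn c (↑F : Set ℕ))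
    (a : ℕ → ℝ) {B : ℝ} (h : ∀ G : Finset ℕ, G ⊆ F → G.card ≤ n → ∑ j ∈ G, |a j| ≤ B) :
    S n (∑ j ∈ F, Finsupp.single (c j) (a j)) ≤ B := by
  classical
  apply S_le
  intro G hG
  have hsub : F.filter (fun j => c j ∈ G) ⊆ F := Finset.filter_subset _ _
  have hcard : (F.filter (fun j => c j ∈ G)).card ≤ n := by
    refine (Finset.card_le_card_of_injOn c ?_ ?_).trans hG
    · intro j hj
      have hj' := Finset.mem_filter.mp (Finset.mem_coe.mp hj)
      exact Finset.mem_coe.mpr hj'.2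
    · intro j hj k hk hjk
      have hj' := Finset.mem_filter.mp (Finset.mem_coe.mp hj)
      have hk' := Finset.mem_filter.mp (Finset.mem_coe.mp hk)
      exact hc (Finset.mem_coe.mpr hj'.1) (Finset.mem_coe.mpr hk'.1) hjk
  refine le_trans ?_ (h _ hsub hcard)
  calc ∑ i ∈ G, |(∑ j ∈ F, Finsupp.single (c j) (a j)) i|
      ≤ ∑ i ∈ G, ∑ j ∈ F, if c j = i then |a j| else 0 := by
        apply Finset.sum_le_sum
        intro i _
        rw [X1_sum_apply]
        refine (Finset.abs_sum_le_sum_abs _ _).trans (le_of_eq ?_)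
        apply Finset.sum_congr rfl
        intro j _
        split_ifs
        · rfl
        · exact abs_zero
    _ = ∑ j ∈ F, ∑ i ∈ G, if c j = i then |a j| else 0 := Finset.sum_comm
    _ = ∑ j ∈ F, if c j ∈ G then |a j| else 0 := by
        apply Finset.sum_congr rfl
        intro j _
        rw [Finset.sum_ite_eq]
    _ = ∑ j ∈ F.filter (fun j => c j ∈ G), |a j| := by
        rw [Finset.sum_filter]

end Pool.Agent.Lib.MP_a1a06b_an.LZ
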