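import Pool.Agent.Lib.MP_a1a06b_an.LZ.X1

set_option autoImplicit false

open Finset

noncomputable section

namespace Pool.Agent.Lib.MP_a1a06b_an.LZ

variable (P : Par)

/-! ROW X2: facts on `nX`. -/

theorem A_pos (l : ℕ) : 0 < (P.A l : ℝ) := by
  have h := P.ge l
  have h8 : 0 < 8 ^ l := by positivity
  exact_mod_cast lt_of_lt_of_le h8 h

theorem w_pos (l : ℕ) : 0 < P.w l := by
  unfold Par.w
  have := A_pos P l
  positivity

theorem w_mul_A (l : ℕ) : P.w l * P.A l = 2 ^ (l + 1) := by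
  unfold Par.w
  have := (A_pos P l).ne'
  field_simp

/-- `w l = 2 ^ (l + 1) / A l ≤ 2 ^ (l + 1) / 8 ^ l`. -/
theorem w_le (l : ℕ) : P.w l ≤ 2 * (1 / 4) ^ l := by
  have hA := A_pos P l
  have h : ((8:ℝ)) ^ l ≤ P.A l := by exact_mod_cast P.ge l
  unfold Par.w
  rw [div_le_iff₀ hA]
  have h2 : (2:ℝ) ^ (l+1) = 2 * (1/4)^l * 8 ^ l := by
    rw [mul_assoc, ← mul_pow, pow_succ]
    norm_num
    ring
  rw [h2]
  have : (0:ℝ) ≤ 2 * (1/4)^l := by positivity
  exact mul_le_mul_of_nonneg_left h this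

/-- comparison with the geometric series: `w l * S (A l) y ≤ 2 (1/4) ^ l * ∑ |y i|`. -/
theorem summable_nX (y : ℕ →₀ ℝ) : Summable fun l => P.w l * S (P.A l) y := by
  have hg : Summable (fun l : ℕ => 2 * (1 / 4 : ℝ) ^ l * ∑ i ∈ y.support, |y i|) := by
    apply Summable.mul_right
    apply Summable.mul_left
    exact summable_geometric_of_lt_one (by norm_num) (by norm_num)
  refine Summable.of_nonneg_of_le (fun l => mul_nonneg (w_pos P l).le (S_nonneg _ _)) (fun l => ?_) hg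
  exact mul_le_mul (w_le P l) (S_le_l1 _ _) (S_nonneg _ _) (by positivity)

theorem nX_nonneg (y : ℕ →₀ ℝ) : 0 ≤ nX P y := by
  exact tsum_nonneg fun l => mul_nonneg (w_pos P l).le (S_nonneg _ _)

theorem nX_zero : nX P 0 = 0 := by
  simp [nX, S_zero]

theorem nX_mono {y z : ℕ →₀ ℝ} (h : ∀ i, |y i| ≤ |z i|) : nX P y ≤ nX P z := by
  exact Summable.tsum_le_tsum (fun l => mul_le_mul_of_nonneg_left (S_mono h) (w_pos P l).le)
    (summable_nX P y) (summable_nX P z)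

theorem nX_add_le (y z : ℕ →₀ ℝ) : nX P (y + z) ≤ nX P y + nX P z := by
  have h1 : nX P y + nX P z = ∑' l, (P.w l * S (P.A l) y + P.w l * S (P.A l) z) :=
    (Summable.tsum_add (summable_nX P y) (summable_nX P z)).symm
  rw [h1]
  refine Summable.tsum_le_tsum (fun l => ?_) (summable_nX P _) ((summable_nX P y).add (summable_nX P z))
  rw [← mul_add]
  exact mul_le_mul_of_nonneg_left (S_add_le _ _ _) (w_pos P l).le

theorem nX_smul (c : ℝ) (y : ℕ →₀ ℝ) : nX P (c • y) = |c| * nX P y := by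
  unfold nX
  rw [← tsum_mul_left]
  congr 1
  funext l
  rw [S_smul]
  ring

theorem nX_neg (y : ℕ →₀ ℝ) : nX P (-y) = nX P y := by
  unfold nX
  congr 1
  funext l
  rw [S_neg]

/-- one term of the series -/
theorem w_mul_S_le (l : ℕ) (y : ℕ →₀ ℝ) : P.w l * S (P.A l) y ≤ nX P y := by
  exact (summable_nX P y).le_tsum l fun j _ => mul_nonneg (w_pos P j).le (S_nonneg _ _)

/-- the term `l = 0`: `w 0 = 2`, `A 0 = 1`. -/
theorem two_abs_le (y : ℕ →₀ ℝ) (i : ℕ) : 2 * |y i| ≤ nX P y := by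
  have h := w_mul_S_le P 0 y
  have hw : P.w 0 = 2 := by
    unfold Par.w
    rw [P.zero]
    norm_num
  rw [hw] at h
  have h2 : |y i| ≤ S (P.A 0) y := abs_le_S (by rw [P.zero]) y i
  linarith

/-- `∑ l, w l * S (A l) (single m t) ≤ ∑ l, 2 (1/4) ^ l |t| = (8/3) |t|`. -/
theorem nX_single_le (m : ℕ) (t : ℝ) : nX P (Finsupp.single m t) ≤ 3 * |t| := by
  have hg : Summable (fun l : ℕ => 2 * (1 / 4 : ℝ) ^ l * |t|) := by
    apply Summable.mul_right
    apply Summable.mul_left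
    exact summable_geometric_of_lt_one (by norm_num) (by norm_num)
  have h1 : nX P (Finsupp.single m t) ≤ ∑' l : ℕ, 2 * (1 / 4 : ℝ) ^ l * |t| := by
    refine Summable.tsum_le_tsum (fun l => ?_) (summable_nX P _) hg
    exact mul_le_mul (w_le P l) (S_single_le _ _ _) (S_nonneg _ _) (by positivity)
  have h2 : ∑' l : ℕ, 2 * (1 / 4 : ℝ) ^ l * |t| = 8 / 3 * |t| := by
    rw [tsum_mul_right, tsum_mul_left, tsum_geometric_of_lt_one (by norm_num) (by norm_num)]
    norm_num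
  rw [h2] at h1
  have := abs_nonneg t
  linarith

theorem nX_eq_zero {y : ℕ →₀ ℝ} (h : nX P y = 0) : y = 0 := by
  ext i
  have h1 := two_abs_le P y i
  rw [h] at h1
  have h2 := abs_nonneg (y i)
  have h3 : |y i| = 0 := by linarith
  simpa using h3

private theorem X2_abs_le_fresh {z : ℕ →₀ ℝ} {m : ℕ} (hm : z m = 0) (t : ℝ) (i : ℕ) :
    |z i| ≤ |(z + Finsupp.single m t) i| := by
  by_cases hi : i = m
  · subst hi
    rw [hm, abs_zero]
    exact abs_nonneg _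
  · rw [Finsupp.add_apply, Finsupp.single_eq_of_ne hi, add_zero]

/-- Fresh coordinates. All terms of the series increase, the term `l` increases by `w l * (|k| 2^{-l} - 2^{-l} / 2) ≥ w l |k| 2^{-l} / 2 = |k| / A l`
(`S_fresh` with `τ = 2^{-l} / 2`: `w l * S (A l) z ≤ nX z ≤ 1` gives `S (A l) z ≤ A l / 2 ^ (l + 1)`). -/
theorem nX_fresh (l : ℕ) {z : ℕ →₀ ℝ} {m : ℕ} (hm : z m = 0) (hz : nX P z ≤ 1) {k : ℤ}
    (hk : k ≠ 0) : nX P z + |(k : ℝ)| / P.A l ≤
      nX P (z + Finsupp.single m ((k : ℝ) * (1 / 2) ^ l)) := by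
  have hwl := w_pos P l
  have hAl := A_pos P l
  set z' := z + Finsupp.single m ((k : ℝ) * (1 / 2) ^ l) with hz'
  have hterm : ∀ j, 0 ≤ P.w j * S (P.A j) z' - P.w j * S (P.A j) z := by
    intro j
    have := mul_le_mul_of_nonneg_left (S_mono (n := P.A j) (X2_abs_le_fresh hm ((k : ℝ) * (1 / 2) ^ l)))
      (w_pos P j).le
    linarith
  have hsum : Summable fun j => P.w j * S (P.A j) z' - P.w j * S (P.A j) z :=
    (summable_nX P z').sub (summable_nX P z)
  have h1 : P.w l * S (P.A l) z' - P.w l * S (P.A l) z ≤ nX P z' - nX P z := by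
    have h2 : nX P z' - nX P z = ∑' j, (P.w j * S (P.A j) z' - P.w j * S (P.A j) z) :=
      (Summable.tsum_sub (summable_nX P z') (summable_nX P z)).symm
    rw [h2]
    exact hsum.le_tsum l fun j _ => hterm j
  have hA1 : 1 ≤ P.A l := by exact_mod_cast Nat.cast_pos.mp hAl
  have hpow : (0:ℝ) < (1 / 2) ^ l := by positivity
  have hwA := w_mul_A P l
  have h2p : (2:ℝ) ^ (l + 1) * ((1 / 2) ^ l / 2) = 1 := by
    rw [pow_succ]
    have : (2:ℝ) ^ l * (1 / 2) ^ l = 1 := by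
      rw [← mul_pow]; norm_num
    nlinarith [this]
  have hS : S (P.A l) z ≤ (P.A l : ℝ) * ((1 / 2) ^ l / 2) := by
    have h3 := w_mul_S_le P l z
    have h4 : P.w l * S (P.A l) z ≤ P.w l * ((P.A l : ℝ) * ((1 / 2) ^ l / 2)) := by
      rw [← mul_assoc, hwA, h2p]
      linarith
    exact le_of_mul_le_mul_left h4 hwl
  have h5 := S_fresh hA1 hm (τ := (1 / 2) ^ l / 2) (by positivity) hS ((k : ℝ) * (1 / 2) ^ l)
  rw [← hz'] at h5
  have hk1 : (1:ℝ) ≤ |(k : ℝ)| := by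
    have : (1:ℤ) ≤ |k| := Int.one_le_abs hk
    exact_mod_cast this
  have h6 : |(k : ℝ) * (1 / 2) ^ l| = |(k : ℝ)| * (1 / 2) ^ l := by
    rw [abs_mul, abs_of_pos hpow]
  rw [h6] at h5
  have h7 : S (P.A l) z + |(k : ℝ)| * ((1 / 2) ^ l / 2) ≤ S (P.A l) z' := by
    nlinarith [mul_le_mul_of_nonneg_right hk1 hpow.le]
  have h8 : P.w l * (|(k : ℝ)| * ((1 / 2) ^ l / 2)) = |(k : ℝ)| / P.A l := by
    unfold Par.w
    have : (2:ℝ) ^ (l + 1) / (P.A l : ℝ) * (|(k : ℝ)| * ((1 / 2) ^ l / 2)) =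
      (2:ℝ) ^ (l + 1) * ((1 / 2) ^ l / 2) * (|(k : ℝ)| / P.A l) := by ring
    rw [this, h2p, one_mul]
  have h9 := mul_le_mul_of_nonneg_left h7 hwl.le
  rw [mul_add, h8] at h9
  linarith

theorem nX_fresh_mono {z : ℕ →₀ ℝ} {m : ℕ} (hm : z m = 0) (t : ℝ) :
    nX P z ≤ nX P (z + Finsupp.single m t) := by
  exact nX_mono P (X2_abs_le_fresh hm t)

private theorem X2_sum_single_apply (F : Finset ℕ) (a : ℕ → ℝ) {j : ℕ} (hj : j ∈ F) :
    (∑ j ∈ F, Finsupp.single j (a j)) j = a j := by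
  rw [Finsupp.finsetSum_apply]
  rw [Finset.sum_eq_single j]
  · exact Finsupp.single_eq_same
  · intro b _ hb
    exact Finsupp.single_eq_of_ne (by first | exact hb | exact fun h => hb h.symm)
  · intro h
    exact absurd hj h

/-- `S_reindex` and `le_S` for `∑ j ∈ F, single j (a j)`. -/
theorem nX_reindex (F : Finset ℕ) (c : ℕ → ℕ) (hc : Set.InjOn c (↑F : Set ℕ)) (a : ℕ → ℝ) :
    nX P (∑ j ∈ F, Finsupp.single (c j) (a j)) ≤ nX P (∑ j ∈ F, Finsupp.single j (a j)) := by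
  refine Summable.tsum_le_tsum (fun l => mul_le_mul_of_nonneg_left ?_ (w_pos P l).le)
    (summable_nX P _) (summable_nX P _)
  refine S_reindex (P.A l) F c hc a fun G hG hGn => ?_
  have h1 : ∑ j ∈ G, |a j| = ∑ j ∈ G, |(∑ j ∈ F, Finsupp.single j (a j)) j| := by
    refine Finset.sum_congr rfl fun j hj => ?_
    rw [X2_sum_single_apply F a (hG hj)]
  rw [h1]
  exact le_S hGn _

/-- `S (A k) (∑ j ∈ F, single j (a j)) ≤ A k * min (64^{-L}, 64^{-k}) ≤ A k * 8^{-L} * 8^{-k}` (`S_reindex` with `c = id`), so the series is at most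
`∑ k, 2 ^ (k + 1) * 8^{-L} * 8^{-k} = 8^{-L} * (8/3)`. -/
theorem nX_omega (F : Finset ℕ) (a : ℕ → ℝ) (L : ℕ) (h1 : ∀ j ∈ F, |a j| ≤ (1 / 64) ^ L)
    (h2 : ∀ k : ℕ, ∀ G : Finset ℕ, G ⊆ F → G.card ≤ P.A k →
      ∑ j ∈ G, |a j| ≤ (1 / 64) ^ k * P.A k) :
    nX P (∑ j ∈ F, Finsupp.single j (a j)) ≤ 3 * (1 / 8) ^ L := by
  have hg : Summable (fun k : ℕ => 2 * (1 / 4 : ℝ) ^ k * (1 / 8) ^ L) := by
    apply Summable.mul_right
    apply Summable.mul_left
    exact summable_geometric_of_lt_one (by norm_num) (by norm_num)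
  have hkey : ∀ k : ℕ, P.w k * S (P.A k) (∑ j ∈ F, Finsupp.single j (a j)) ≤
      2 * (1 / 4 : ℝ) ^ k * (1 / 8) ^ L := by
    intro k
    have hA := A_pos P k
    have hS : S (P.A k) (∑ j ∈ F, Finsupp.single (id j) (a j)) ≤
        (P.A k : ℝ) * ((1 / 8) ^ L * (1 / 8) ^ k) := by
      refine S_reindex (P.A k) F id Function.injective_id.injOn a fun G hG hGn => ?_
      rcases le_total L k with hLk | hkL
      · have h3 := h2 k G hG hGn
        have h4 : ((1:ℝ) / 64) ^ k ≤ (1 / 8) ^ L * (1 / 8) ^ k := by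
          have h5 : ((1:ℝ) / 64) ^ k = (1 / 8) ^ k * (1 / 8) ^ k := by
            rw [← mul_pow]; norm_num
          rw [h5]
          exact mul_le_mul_of_nonneg_right
            (pow_le_pow_of_le_one (by norm_num) (by norm_num) hLk) (by positivity)
        calc ∑ j ∈ G, |a j| ≤ (1 / 64) ^ k * P.A k := h3
          _ ≤ ((1 / 8) ^ L * (1 / 8) ^ k) * P.A k := mul_le_mul_of_nonneg_right h4 hA.le
          _ = _ := by ring
      · have h3 : ∑ j ∈ G, |a j| ≤ G.card • ((1:ℝ) / 64) ^ L :=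
          Finset.sum_le_card_nsmul G _ _ fun j hj => h1 j (hG hj)
        rw [nsmul_eq_mul] at h3
        have h6 : (G.card : ℝ) ≤ P.A k := by exact_mod_cast hGn
        have h4 : ((1:ℝ) / 64) ^ L ≤ (1 / 8) ^ L * (1 / 8) ^ k := by
          have h5 : ((1:ℝ) / 64) ^ L = (1 / 8) ^ L * (1 / 8) ^ L := by
            rw [← mul_pow]; norm_num
          rw [h5]
          exact mul_le_mul_of_nonneg_left
            (pow_le_pow_of_le_one (by norm_num) (by norm_num) hkL) (by positivity)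
        calc ∑ j ∈ G, |a j| ≤ (G.card : ℝ) * (1 / 64) ^ L := h3
          _ ≤ (P.A k : ℝ) * (1 / 64) ^ L := mul_le_mul_of_nonneg_right h6 (by positivity)
          _ ≤ _ := mul_le_mul_of_nonneg_left h4 hA.le
    simp only [id] at hS
    have hwA := w_mul_A P k
    calc P.w k * S (P.A k) (∑ j ∈ F, Finsupp.single j (a j))
        ≤ P.w k * ((P.A k : ℝ) * ((1 / 8) ^ L * (1 / 8) ^ k)) :=
          mul_le_mul_of_nonneg_left hS (w_pos P k).le
      _ = (P.w k * P.A k) * ((1 / 8) ^ L * (1 / 8) ^ k) := by ring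
      _ = 2 ^ (k + 1) * ((1 / 8) ^ L * (1 / 8) ^ k) := by rw [hwA]
      _ = 2 * (1 / 4 : ℝ) ^ k * (1 / 8) ^ L := by
        have : (2:ℝ) ^ k * (1 / 8) ^ k = (1 / 4) ^ k := by
          rw [← mul_pow]; norm_num
        rw [pow_succ, ← this]
        ring
  have h1 : nX P (∑ j ∈ F, Finsupp.single j (a j)) ≤ ∑' k : ℕ, 2 * (1 / 4 : ℝ) ^ k * (1 / 8) ^ L :=
    Summable.tsum_le_tsum hkey (summable_nX P _) hg
  have h2 : ∑' k : ℕ, 2 * (1 / 4 : ℝ) ^ k * (1 / 8) ^ L = 8 / 3 * (1 / 8) ^ L := by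
    rw [tsum_mul_right, tsum_mul_left, tsum_geometric_of_lt_one (by norm_num) (by norm_num)]
    norm_num
  rw [h2] at h1
  have : (0:ℝ) < (1 / 8) ^ L := by positivity
  linarith

end Pool.Agent.Lib.MP_a1a06b_an.LZ
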