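import Pool.Agent.Lib.MP_a1a06b_an.LZ.ASb
import Pool.Agent.Lib.MP_a1a06b_an.LZ.SEb
import Pool.Agent.Lib.MP_a1a06b_an.LZ.SEc
import Pool.Agent.Lib.MP_a1a06b_an.LZ.CT

set_option autoImplicit false

open Finset MeasureTheory Filter Topology
open scoped Classical ENNReal

noncomputable section

namespace Pool.Agent.Lib.MP_a1a06b_an.LZ

private theorem ZZ_tendsto {P : Par} {y : ℕ → ℝ} (hy : Prof P y) : Tendsto y atTop (𝓝 0) := by
  rw [Metric.tendsto_atTop]
  intro ε hε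
  obtain ⟨L, hL⟩ := exists_pow_lt_of_lt_one hε (by norm_num : (1 / 64 : ℝ) < 1)
  have hfin := hy.finite P L
  obtain ⟨N, hN⟩ := hfin.bddAbove
  refine ⟨N + 1, fun n hn => ?_⟩
  rw [Real.dist_eq, sub_zero]
  by_contra hcon
  push Not at hcon
  have : n ≤ N := hN (show (1 / 64 : ℝ) ^ L < |y n| from lt_of_lt_of_le hL hcon)
  omega

/-- ROW ZZ: `exists_par`, weak* nullity from `Prof.finite`, `select` for `R⁻¹ • f`, `main` for the subsequence `θ` (`Prof` is inherited: image of `G` under the injective `θ`), `contractible_Lp`. -/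
theorem final {E : Type*} [NormedAddCommGroup E] [NormedSpace ℝ E] [CompleteSpace E]
    (f : ℕ → E →L[ℝ] ℝ) (c : ℝ) (hc : 0 < c) (hf : ∀ n, c ≤ ‖f n‖) (h : UCes f) :
    ∃ H : AddSubgroup E, IsClosed (H : Set E) ∧
      ∃ (M : Type) (_ : NormedAddCommGroup M), CompleteSpace M ∧
        TopologicalSpace.SeparableSpace M ∧ Nontrivial M ∧ (∃ C : ℝ, ∀ x : M, ‖x‖ ≤ C) ∧
        Nonempty ((E ⧸ H) ≃ₜ+ Lp M 1 (volume : Measure unitInterval)) ∧
        ContractibleSpace (E ⧸ H) := by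
  obtain ⟨R, P, hR, hP⟩ := exists_par f h
  have hR0 : 0 < R := lt_of_lt_of_le zero_lt_one hR
  let f' : ℕ → E →L[ℝ] ℝ := fun n => R⁻¹ • f n
  have hf'x : ∀ n x, f' n x = R⁻¹ * f n x := fun n x => rfl
  have hP' : ∀ x : E, ‖x‖ ≤ 1 → Prof P (fun n => f' n x) := fun x hx => hP x hx
  have hb : ∀ n, ‖f' n‖ ≤ 1 := by
    intro n
    refine ContinuousLinearMap.opNorm_le_of_unit_norm zero_le_one (fun x hx => ?_)
    have h1 := hP' x hx.le 0 {n} (by rw [Finset.card_singleton, P.zero])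
    rw [Finset.sum_singleton, P.zero] at h1
    simpa using h1
  have hf' : ∀ n, R⁻¹ * c ≤ ‖f' n‖ := by
    intro n
    show R⁻¹ * c ≤ ‖R⁻¹ • f n‖
    rw [norm_smul, Real.norm_of_nonneg (inv_nonneg.2 hR0.le)]
    exact mul_le_mul_of_nonneg_left (hf n) (inv_nonneg.2 hR0.le)
  have hz : ∀ x, Tendsto (fun n => f' n x) atTop (𝓝 0) := by
    intro x
    by_cases hx : x = 0
    · simp [hx]
    have hx0 : 0 < ‖x‖ := norm_pos_iff.2 hx
    have h1 := ZZ_tendsto (hP' (‖x‖⁻¹ • x) (by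
      rw [norm_smul, norm_inv, norm_norm, inv_mul_cancel₀ hx0.ne']))
    have h2 := h1.const_mul ‖x‖
    rw [mul_zero] at h2
    refine h2.congr (fun n => ?_)
    rw [map_smul, smul_eq_mul, ← mul_assoc, mul_inv_cancel₀ hx0.ne', one_mul]
  obtain ⟨θ, Z, C, hθ, hZ, hZ1, hZ2⟩ := select f' (R⁻¹ * c) (by positivity) hf' hb hz
  have hPθ : ∀ x : E, ‖x‖ ≤ 1 → Prof P (fun n => f' (θ n) x) := by
    intro x hx k G hG
    have h1 := hP' x hx k (G.image θ) (by
      rw [Finset.card_image_of_injective _ hθ.injective]; exact hG)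
    rwa [Finset.sum_image (fun a _ b _ hab => hθ.injective hab)] at h1
  obtain ⟨H, hH, ⟨φ⟩⟩ := main P (volume : Measure unitInterval) (fun n => f' (θ n)) hPθ Z C hZ
    hZ1 hZ2
  have := contractible_Lp (MM P)
  exact ⟨H, hH, MM P, inferInstance, inferInstance, separable_MM P, nontrivial_MM P,
    ⟨3, norm_le_three P⟩, ⟨φ⟩, φ.toHomeomorph.contractibleSpace⟩

end Pool.Agent.Lib.MP_a1a06b_an.LZ
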